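import Pool.Agent.MST.Defs

/-!
# Countable algebras on the ordinals, closures, and elementary substructures
-/

namespace MST

open FirstOrder Ordinal Cardinal Set

/-- A countable family of finitary functions on the ordinals. -/
structure Alg where
  ι : Type
  cnt : Countable ι
  F : ι → List Ordinal.{0} → Ordinal.{0}

attribute [instance] Alg.cnt

/-- closed sets of an algebra -/
def Closed (A : Alg) (N : Set Ordinal.{0}) : Prop :=
  ∀ i l, (∀ x ∈ l, x ∈ N) → A.F i l ∈ N

/-- the closure of a set -/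
def cl (A : Alg) (X : Set Ordinal.{0}) : Set Ordinal.{0} :=
  {x | ∀ N, Closed A N → X ⊆ N → x ∈ N}

theorem subset_cl (A : Alg) (X : Set Ordinal.{0}) : X ⊆ cl A X :=
  fun _ hx _ _ h => h hx

theorem cl_closed (A : Alg) (X : Set Ordinal.{0}) : Closed A (cl A X) :=
  fun i l hl N hN hX => hN i l fun x hx => hl x hx N hN hX

theorem cl_min {A : Alg} {X N : Set Ordinal.{0}} (hN : Closed A N) (h : X ⊆ N) : cl A X ⊆ N :=
  fun _ hx => hx N hN h

theorem cl_mono {A : Alg} {X Y : Set Ordinal.{0}} (h : X ⊆ Y) : cl A X ⊆ cl A Y :=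
  cl_min (cl_closed A Y) (h.trans (subset_cl A Y))

/-- two algebras together -/
def Alg.add (A B : Alg) : Alg :=
  ⟨A.ι ⊕ B.ι, inferInstance, Sum.elim A.F B.F⟩

theorem closed_add {A B : Alg} {N : Set Ordinal.{0}} :
    Closed (A.add B) N ↔ Closed A N ∧ Closed B N := by
  constructor
  · intro h
    exact ⟨fun i l hl => h (Sum.inl i) l hl, fun i l hl => h (Sum.inr i) l hl⟩
  · rintro ⟨h1, h2⟩ (i | i) l hl
    · exact h1 i l hl
    · exact h2 i l hl

/-- the language of an algebra -/
def Alg.lang (A : Alg) : FirstOrder.Language.{0, 0} := ⟨fun _ => A.ι, fun _ => Empty⟩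

theorem Alg.lang_card (A : Alg) : A.lang.card ≤ ℵ₀ := by
  have h1 : Countable (Σ n, A.lang.Functions n) := by
    have : ∀ n, Countable (A.lang.Functions n) := fun _ => A.cnt
    infer_instance
  have h2 : Countable (Σ n, A.lang.Relations n) := by
    have : ∀ n, Countable (A.lang.Relations n) := fun _ => (inferInstance : Countable Empty)
    infer_instance
  have h3 : Countable A.lang.Symbols := by
    unfold Language.Symbols
    infer_instance
  exact Cardinal.mk_le_aleph0_iff.2 h3

theorem Alg.fun_card (A : Alg) : #(Σ n, A.lang.Functions n) ≤ ℵ₀ := by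
  have : ∀ n, Countable (A.lang.Functions n) := fun _ => A.cnt
  exact Cardinal.mk_le_aleph0_iff.2 inferInstance

/-- the algebra as a structure on all ordinals -/
@[instance_reducible] noncomputable def Alg.strOrd (A : Alg) : A.lang.Structure Ordinal.{0} :=
  ⟨fun {_} i x => A.F i (List.ofFn x), fun {_} r => Empty.elim r⟩

theorem mk_cl_le (A : Alg) (X : Set Ordinal.{0}) : #(cl A X) ≤ max ℵ₀ #X := by
  let _ := A.strOrd
  let S := Language.Substructure.closure A.lang X
  have hS : Closed A (S : Set Ordinal.{0}) := by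
    intro i l hl
    have := S.fun_mem (n := l.length) i (fun j => l.get j) (fun j => hl _ (List.get_mem l j))
    have h2 : Language.Structure.funMap (L := A.lang) (M := Ordinal.{0}) (n := l.length) i
        (fun j => l.get j) = A.F i l := by
      change A.F i (List.ofFn (fun j => l.get j)) = A.F i l
      rw [List.ofFn_get]
    rw [← h2]
    exact this
  have h1 : cl A X ⊆ (S : Set Ordinal.{0}) :=
    cl_min hS (Language.Substructure.subset_closure (L := A.lang))
  have h2 : #(cl A X) ≤ #(S : Set Ordinal.{0}) := Cardinal.mk_le_mk_of_subset h1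
  have h3 := Language.Substructure.lift_card_closure_le (L := A.lang) (s := X)
  have h4 : Cardinal.lift.{1, 0} #(Σ n, A.lang.Functions n) ≤ ℵ₀ := by
    exact Cardinal.lift_le_aleph0.2 A.fun_card
  refine h2.trans ?_
  have h5 : #(S : Set Ordinal.{0}) ≤ max ℵ₀ (#X + Cardinal.lift.{1, 0} #(Σ n, A.lang.Functions n)) := by
    simpa using h3
  refine h5.trans ?_
  refine max_le (le_max_left _ _) ?_
  calc #X + Cardinal.lift.{1, 0} #(Σ n, A.lang.Functions n) ≤ max ℵ₀ #X + max ℵ₀ #X :=
        add_le_add (le_max_right _ _) (h4.trans (le_max_left _ _))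
    _ = max ℵ₀ #X := Cardinal.add_eq_self (le_max_left _ _)

/-- the structure on `ℵ_ω` given by an algebra -/
@[instance_reducible] noncomputable def Alg.strPt (A : Alg) : A.lang.Structure Pt := by
  classical
  exact ⟨fun {_} i x =>
    if h : A.F i (List.ofFn fun j => (x j : Ordinal.{0})) < ω_ (ω : Ordinal.{0}) then ⟨_, h⟩
    else ⟨0, omega_pos _⟩, fun {_} r => Empty.elim r⟩

/-- the countable structure on `ℵ_ω` given by an algebra -/
noncomputable def Alg.toC (A : Alg) : CStr := ⟨A.lang, A.lang_card, A.strPt⟩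

/-- the ordinals of a set of points -/
def ords (N : Set Pt) : Set Ordinal.{0} := {x | ∃ p ∈ N, (p : Ordinal.{0}) = x}

theorem ords_lt {N : Set Pt} {x : Ordinal.{0}} (h : x ∈ ords N) : x < ω_ (ω : Ordinal.{0}) := by
  obtain ⟨p, -, rfl⟩ := h
  exact p.2

/-- an algebra maps ordinals below `ω_ω` to ordinals below `ω_ω` -/
def Alg.Bdd (A : Alg) : Prop :=
  ∀ i l, (∀ x ∈ l, x < ω_ (ω : Ordinal.{0})) → A.F i l < ω_ (ω : Ordinal.{0})

theorem Alg.Bdd.add {A B : Alg} (hA : A.Bdd) (hB : B.Bdd) : (A.add B).Bdd := by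
  rintro (i | i) l hl
  · exact hA i l hl
  · exact hB i l hl

theorem closed_ords {A : Alg} (hb : A.Bdd) (N : A.toC.L.ElementarySubstructure Pt) :
    Closed A (ords (N : Set Pt)) := by
  intro i l hl
  have hl2 : ∀ x ∈ l, x < ω_ (ω : Ordinal.{0}) := fun x hx => ords_lt (hl x hx)
  let x : Fin l.length → Pt := fun j => ⟨l.get j, hl2 _ (List.get_mem l j)⟩
  have hx : ∀ j, x j ∈ N := by
    intro j
    obtain ⟨p, hp, hpj⟩ := hl _ (List.get_mem l j)
    have : x j = p := Subtype.ext hpj.symm
    rw [this]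
    exact hp
  let _ : A.lang.Structure Pt := A.strPt
  have h1 := N.toSubstructure.fun_mem (n := l.length) i x (fun j => hx j)
  refine ⟨_, h1, ?_⟩
  have h2 : A.F i (List.ofFn fun j => (x j : Ordinal.{0})) = A.F i l := by
    have : (fun j => ((x j : Pt) : Ordinal.{0})) = fun j => l.get j := rfl
    rw [this, List.ofFn_get]
  change ((Language.Structure.funMap (L := A.lang) (M := Pt) (n := l.length) i x : Pt) :
    Ordinal.{0}) = _
  have h3 : A.F i (List.ofFn fun j => (x j : Ordinal.{0})) < ω_ (ω : Ordinal.{0}) := by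
    rw [h2]
    exact hb i l hl2
  have h4 : (Language.Structure.funMap (L := A.lang) (M := Pt) (n := l.length) i x : Pt) =
      ⟨A.F i (List.ofFn fun j => (x j : Ordinal.{0})), h3⟩ := by
    change (if h : A.F i (List.ofFn fun j => (x j : Ordinal.{0})) < ω_ (ω : Ordinal.{0}) then
      (⟨_, h⟩ : Pt) else ⟨0, omega_pos _⟩) = _
    rw [dif_pos h3]
  rw [h4]
  exact h2

/-- `sup (N ∩ κ_n)` for sets of ordinals -/
noncomputable def chiS (N : Set Ordinal.{0}) (n : ℕ) : Ordinal.{0} := sSup (N ∩ Iio (kap n))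

theorem chi_eq (N : Set Pt) (n : ℕ) : chi N n = chiS (ords N) n := by
  unfold chi chiS
  congr 1
  ext x
  simp only [ords, mem_ofPred_eq, mem_inter_iff, mem_Iio]
  exact ⟨fun h => ⟨h.2, h.1⟩, fun h => ⟨h.2, h.1⟩⟩

theorem ords_of {N : Set Ordinal.{0}} (hN : ∀ x ∈ N, x < ω_ (ω : Ordinal.{0})) :
    ords {p : Pt | (p : Ordinal.{0}) ∈ N} = N := by
  ext x
  constructor
  · rintro ⟨p, hp, rfl⟩
    exact hp
  · intro hx
    exact ⟨⟨x, hN x hx⟩, hx, rfl⟩

instance : Nonempty Pt := ⟨⟨0, omega_pos _⟩⟩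

/-- Skolem functions. -/
theorem exists_skolem (C : CStr) : ∃ A : Alg, A.Bdd ∧
    ∀ N : Set Ordinal.{0}, (∀ x ∈ N, x < ω_ (ω : Ordinal.{0})) → Closed A N →
      ∃ M : C.L.ElementarySubstructure Pt, (M : Set Pt) = {p : Pt | (p : Ordinal.{0}) ∈ N} := by
  classical
  have hc : Countable (Σ n, (C.L.sum C.L.skolem₁).Functions n) := by
    have h1 : #(Σ n, (C.L.sum C.L.skolem₁).Functions n) ≤ max ℵ₀ C.L.card := Language.card_functions_sum_skolem₁_le
    have h2 : max ℵ₀ C.L.card ≤ ℵ₀ := max_le le_rfl C.card_le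
    exact Cardinal.mk_le_aleph0_iff.1 (h1.trans h2)
  let A : Alg := ⟨Σ n, (C.L.sum C.L.skolem₁).Functions n, hc, fun f l =>
    if h : l.length = f.1 ∧ ∀ x ∈ l, x < ω_ (ω : Ordinal.{0}) then
      ((Language.Structure.funMap f.2 (fun j : Fin f.1 =>
        (⟨l.get (j.cast h.1.symm), h.2 _ (List.get_mem l _)⟩ : Pt)) : Pt) : Ordinal.{0})
    else 0⟩
  refine ⟨A, ?_, ?_⟩
  · intro i l hl
    change (if h : _ then _ else _) < _
    split_ifs with h
    · exact Subtype.prop _
    · exact omega_pos _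
  · intro N hN hcl
    let S : (C.L.sum C.L.skolem₁).Substructure Pt := ⟨{p : Pt | (p : Ordinal.{0}) ∈ N}, by
      intro n f x hx
      have h1 := hcl (⟨n, f⟩ : Σ n, (C.L.sum C.L.skolem₁).Functions n) (List.ofFn fun j => (x j : Ordinal.{0})) (by
        intro y hy
        rw [List.mem_ofFn] at hy
        obtain ⟨j, rfl⟩ := hy
        exact hx j)
      have h2 : (List.ofFn fun j => (x j : Ordinal.{0})).length = n ∧
          ∀ y ∈ (List.ofFn fun j => (x j : Ordinal.{0})), y < ω_ (ω : Ordinal.{0}) := by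
        refine ⟨List.length_ofFn, ?_⟩
        intro y hy
        rw [List.mem_ofFn] at hy
        obtain ⟨j, rfl⟩ := hy
        exact (x j).2
      have h3 : A.F ⟨n, f⟩ (List.ofFn fun j => (x j : Ordinal.{0})) =
          ((Language.Structure.funMap f x : Pt) : Ordinal.{0}) := by
        change (if h : _ then _ else _) = _
        rw [dif_pos h2]
        congr 2
        ext j
        simp
      rw [h3] at h1
      exact h1⟩
    refine ⟨Language.Substructure.elementarySkolem₁Reduct S, rfl⟩

end MST
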