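import Pool.Agent.MST.Alg

/-!
# Cardinal facts about `κ_n = ℵ_{n+2}` and auxiliary functions
-/

namespace MST

open FirstOrder Ordinal Cardinal Set

theorem kap_eq (n : ℕ) : kap n = ω_ ((n : Ordinal.{0}) + 1 + 1) := by
  have h : ((n + 2 : ℕ) : Ordinal.{0}) = (n : Ordinal.{0}) + 1 + 1 := by
    push_cast
    rw [add_assoc, one_add_one_eq_two]
  unfold kap
  rw [h]

theorem kap_lt_kap {m n : ℕ} : kap m < kap n ↔ m < n := by
  unfold kap
  rw [omega_lt_omega, Nat.cast_lt]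
  omega

theorem kap_le_kap {m n : ℕ} : kap m ≤ kap n ↔ m ≤ n := by
  unfold kap
  rw [omega_le_omega, Nat.cast_le]
  omega

theorem kap_lt (n : ℕ) : kap n < ω_ (ω : Ordinal.{0}) := by
  unfold kap
  rw [omega_lt_omega]
  exact natCast_lt_omega0 _

theorem kap_cof (n : ℕ) : (kap n).cof = ℵ_ ((n : Ordinal.{0}) + 1 + 1) := by
  rw [kap_eq]
  exact cof_omega_add_one _

theorem kap_card (n : ℕ) : (kap n).card = ℵ_ ((n : Ordinal.{0}) + 1 + 1) := by
  rw [kap_eq, card_omega]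

/-- the cardinal predecessor of `κ_n`, as an ordinal -/
noncomputable def mu (n : ℕ) : Ordinal.{0} := ω_ ((n : Ordinal.{0}) + 1)

theorem mu_succ (n : ℕ) : mu (n + 1) = kap n := by
  rw [kap_eq]
  unfold mu
  push_cast
  rfl

theorem mu_lt_kap (n : ℕ) : mu n < kap n := by
  rw [kap_eq]
  unfold mu
  rw [omega_lt_omega]
  exact lt_add_one _

theorem mu_le_mu {m n : ℕ} (h : m ≤ n) : mu m ≤ mu n := by
  unfold mu
  rw [omega_le_omega]
  gcongr

theorem omega1_le_mu (n : ℕ) : ω_ 1 ≤ mu n := by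
  unfold mu
  rw [omega_le_omega]
  exact le_add_self

theorem lt_omega_omega {x : Ordinal.{0}} (h : x < ω_ (ω : Ordinal.{0})) : ∃ n, x < kap n := by
  have h1 : x.card < ℵ_ (ω : Ordinal.{0}) := lt_omega_iff_card_lt.1 h
  rw [aleph_limit isSuccLimit_omega0] at h1
  have : Nonempty (Iio (ω : Ordinal.{0})) := ⟨⟨0, omega0_pos⟩⟩
  obtain ⟨⟨a, ha⟩, h2⟩ := exists_lt_of_lt_ciSup h1
  obtain ⟨n, rfl⟩ := lt_omega0.1 ha
  refine ⟨n, ?_⟩
  rw [kap_eq, lt_omega_iff_card_lt]
  refine h2.trans_le ?_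
  rw [aleph_le_aleph]
  rw [add_assoc]
  exact le_self_add

/-- the cardinality of an ordinal below `κ_n` -/
theorem card_ord_le {n : ℕ} {x : Ordinal.{0}} (h : x < kap n) : x.card.ord ≤ mu n := by
  rw [kap_eq, lt_omega_iff_card_lt, ← succ_aleph, Order.lt_succ_iff] at h
  unfold mu
  rw [← ord_aleph]
  exact ord_le_ord.2 h

theorem cof_ord_le_mu {n : ℕ} {x : Ordinal.{0}} (h : x < kap n) : x.cof.ord ≤ mu n :=
  (ord_le_ord.2 (cof_le_card x)).trans (card_ord_le h)

theorem cof_cases {x : Ordinal.{0}} {n : ℕ} (h : x < kap n) (m : ℕ) :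
    x.cof.ord ≤ mu m ∨ ∃ j, m ≤ j ∧ j < n ∧ x.cof.ord = kap j := by
  by_cases h0 : x.cof < ℵ₀
  · left
    have h1 : x.cof.ord < ω := by
      rw [← ord_aleph0]
      exact ord_lt_ord.2 h0
    exact h1.le.trans (omega0_le_omega _)
  · have h0' : ℵ₀ ≤ x.cof := not_lt.1 h0
    obtain ⟨o, ho⟩ := mem_range_aleph_iff.2 h0'
    have h2 : x.cof.ord = ω_ o := by rw [← ho, ord_aleph]
    have h3 : x.cof.ord ≤ mu n := cof_ord_le_mu h
    rw [h2] at h3 ⊢
    unfold mu at h3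
    rw [omega_le_omega] at h3
    have h4 : o < ω := h3.trans_lt (by
      have : (n : Ordinal.{0}) + 1 = ((n + 1 : ℕ) : Ordinal.{0}) := by push_cast; rfl
      rw [this]
      exact natCast_lt_omega0 _)
    obtain ⟨k, rfl⟩ := lt_omega0.1 h4
    by_cases hk : k ≤ m + 1
    · left
      unfold mu
      rw [omega_le_omega]
      exact_mod_cast hk
    · right
      refine ⟨k - 2, by omega, ?_, ?_⟩
      · have : k ≤ n + 1 := by exact_mod_cast h3
        omega
      · unfold kap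
        congr 2
        omega

/-- a set of fewer than `ℵ_{n+2}` ordinals below `κ_n` is bounded below `κ_n` -/
theorem sSup_lt_kap {n : ℕ} {X : Set Ordinal.{0}} (hX : #X ≤ ℵ_ ((n : Ordinal.{1}) + 1))
    (h : ∀ x ∈ X, x < kap n) : sSup X < kap n := by
  apply sSup_lt_of_lt_cof _ h
  rw [← lift_cof, kap_cof, lift_aleph]
  refine hX.trans_lt ?_
  rw [aleph_lt_aleph]
  simp

theorem mk_Iio_le {n : ℕ} {a : Ordinal.{0}} (h : a < kap n) :
    #(Iio a) ≤ ℵ_ ((n : Ordinal.{1}) + 1) := by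
  rw [Cardinal.mk_Iio_ordinal]
  rw [kap_eq, lt_omega_iff_card_lt, ← succ_aleph, Order.lt_succ_iff] at h
  have h2 : Cardinal.lift.{1} (ℵ_ ((n : Ordinal.{0}) + 1)) = ℵ_ ((n : Ordinal.{1}) + 1) := by
    rw [lift_aleph]
    simp
  rw [← h2]
  exact lift_le.2 h

theorem aleph0_le_al (n : ℕ) : ℵ₀ ≤ ℵ_ ((n : Ordinal.{1}) + 1) := aleph0_le_aleph _

theorem mk_cl_le_al {n : ℕ} (A : Alg) {X : Set Ordinal.{0}} (h : #X ≤ ℵ_ ((n : Ordinal.{1}) + 1)) :
    #(cl A X) ≤ ℵ_ ((n : Ordinal.{1}) + 1) :=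
  (mk_cl_le A X).trans (max_le (aleph0_le_al n) h)

theorem mk_union_al {n : ℕ} {X Y : Set Ordinal.{0}} (h : #X ≤ ℵ_ ((n : Ordinal.{1}) + 1))
    (h' : #Y ≤ ℵ_ ((n : Ordinal.{1}) + 1)) :
    #(X ∪ Y : Set Ordinal.{0}) ≤ ℵ_ ((n : Ordinal.{1}) + 1) :=
  (mk_union_le X Y).trans ((add_le_add h h').trans (Cardinal.add_eq_self (aleph0_le_al n)).le)

/-! ### the auxiliary functions -/

/-- an injection of `x` into its cardinality -/
theorem exists_b (x : Ordinal.{0}) : ∃ f g : Ordinal.{0} → Ordinal.{0},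
    (∀ y < x, g y < x.card.ord ∧ f (g y) = y) ∧ (∀ y, f y ≤ x) ∧ (∀ y, g y ≤ x) := by
  classical
  have h1 : #(Iio x) = #(Iio x.card.ord) := by
    rw [Cardinal.mk_Iio_ordinal, Cardinal.mk_Iio_ordinal, card_ord]
  obtain ⟨e⟩ := Cardinal.eq.1 h1
  refine ⟨fun y => if h : y < x.card.ord then (e.symm ⟨y, h⟩ : Iio x) else 0,
    fun y => if h : y < x then (e ⟨y, h⟩ : Iio x.card.ord) else 0, ?_, ?_, ?_⟩
  · intro y hy
    have h2 : ((e ⟨y, hy⟩ : Iio x.card.ord) : Ordinal.{0}) < x.card.ord := (e ⟨y, hy⟩).2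
    refine ⟨?_, ?_⟩
    · simp only [dif_pos hy]
      exact h2
    · simp only [dif_pos hy]
      rw [dif_pos h2]
      have : (⟨((e ⟨y, hy⟩ : Iio x.card.ord) : Ordinal.{0}), h2⟩ : Iio x.card.ord) = e ⟨y, hy⟩ := rfl
      rw [this, Equiv.symm_apply_apply]
  · intro y
    dsimp only
    split_ifs with h
    · exact (e.symm ⟨y, h⟩).2.le
    · exact zero_le
  · intro y
    dsimp only
    split_ifs with h
    · exact ((e ⟨y, h⟩).2.le).trans (ord_card_le x)
    · exact zero_le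

noncomputable def bF (x : Ordinal.{0}) : Ordinal.{0} → Ordinal.{0} := (exists_b x).choose

noncomputable def bG (x : Ordinal.{0}) : Ordinal.{0} → Ordinal.{0} :=
  (exists_b x).choose_spec.choose

theorem bG_lt {x y : Ordinal.{0}} (h : y < x) : bG x y < x.card.ord :=
  ((exists_b x).choose_spec.choose_spec.1 y h).1

theorem bF_bG {x y : Ordinal.{0}} (h : y < x) : bF x (bG x y) = y :=
  ((exists_b x).choose_spec.choose_spec.1 y h).2

theorem bF_le (x y : Ordinal.{0}) : bF x y ≤ x := (exists_b x).choose_spec.choose_spec.2.1 y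

theorem bG_le (x y : Ordinal.{0}) : bG x y ≤ x := (exists_b x).choose_spec.choose_spec.2.2 y

/-- a cofinal function -/
theorem exists_e (x : Ordinal.{0}) : ∃ f g : Ordinal.{0} → Ordinal.{0},
    (∀ ν < x.cof.ord, f ν < x) ∧ (∀ ν ν', ν ≤ ν' → ν' < x.cof.ord → f ν ≤ f ν') ∧
    (∀ y < x, g y < x.cof.ord ∧ y ≤ f (g y)) ∧ (∀ y, f y ≤ x) ∧ (∀ y, g y ≤ x) := by
  classical
  obtain ⟨f, hf⟩ := exists_isFundamentalSeq (o := x) rfl
  have hc : ∀ y < x, ∃ ν : Iio x.cof.ord, y ≤ f ν := by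
    intro y hy
    obtain ⟨_, ⟨ν, rfl⟩, h⟩ := hf.isCofinal_range ⟨y, hy⟩
    exact ⟨ν, h⟩
  refine ⟨fun ν => if h : ν < x.cof.ord then (f ⟨ν, h⟩ : Iio x) else 0,
    fun y => if h : y < x then ((hc y h).choose : Iio x.cof.ord) else 0, ?_, ?_, ?_, ?_, ?_⟩
  · intro ν hν
    simp only [dif_pos hν]
    exact (f ⟨ν, hν⟩).2
  · intro ν ν' h h'
    simp only [dif_pos h', dif_pos (h.trans_lt h')]
    exact hf.strictMono.monotone (show (⟨ν, h.trans_lt h'⟩ : Iio x.cof.ord) ≤ ⟨ν', h'⟩ from h)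
  · intro y hy
    have h2 := (hc y hy).choose_spec
    have h3 := (hc y hy).choose.2
    refine ⟨?_, ?_⟩
    · simp only [dif_pos hy]
      exact h3
    · simp only [dif_pos hy]
      rw [dif_pos (show ((hc y hy).choose : Ordinal.{0}) < x.cof.ord from h3)]
      exact h2
  · intro ν
    dsimp only
    split_ifs with h
    · exact (f ⟨ν, h⟩).2.le
    · exact zero_le
  · intro y
    dsimp only
    split_ifs with h
    · exact ((hc y h).choose.2.le).trans (ord_cof_le x)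
    · exact zero_le

noncomputable def eF (x : Ordinal.{0}) : Ordinal.{0} → Ordinal.{0} := (exists_e x).choose

noncomputable def eG (x : Ordinal.{0}) : Ordinal.{0} → Ordinal.{0} :=
  (exists_e x).choose_spec.choose

theorem eF_lt {x ν : Ordinal.{0}} (h : ν < x.cof.ord) : eF x ν < x :=
  (exists_e x).choose_spec.choose_spec.1 ν h

theorem eF_mono {x ν ν' : Ordinal.{0}} (h : ν ≤ ν') (h' : ν' < x.cof.ord) : eF x ν ≤ eF x ν' :=
  (exists_e x).choose_spec.choose_spec.2.1 ν ν' h h'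

theorem eG_lt {x y : Ordinal.{0}} (h : y < x) : eG x y < x.cof.ord :=
  ((exists_e x).choose_spec.choose_spec.2.2.1 y h).1

theorem le_eF_eG {x y : Ordinal.{0}} (h : y < x) : y ≤ eF x (eG x y) :=
  ((exists_e x).choose_spec.choose_spec.2.2.1 y h).2

theorem eF_le (x y : Ordinal.{0}) : eF x y ≤ x := (exists_e x).choose_spec.choose_spec.2.2.2.1 y

theorem eG_le (x y : Ordinal.{0}) : eG x y ≤ x := (exists_e x).choose_spec.choose_spec.2.2.2.2 y

/-- the auxiliary functions -/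
noncomputable def auxF (i : Fin 5) (l : List Ordinal.{0}) : Ordinal.{0} :=
  match i, l with
  | 0, [x] => x + 1
  | 1, [x, y] => bF x y
  | 2, [x, y] => bG x y
  | 3, [x, y] => eF x y
  | 4, [x, y] => eG x y
  | _, _ => 0

/-- the auxiliary algebra -/
noncomputable def aux : Alg := ⟨Fin 5, inferInstance, auxF⟩

theorem isSuccLimit_omo : Order.IsSuccLimit (ω_ (ω : Ordinal.{0})) := isSuccLimit_omega _

theorem aux_bdd : aux.Bdd := by
  intro i l hl
  change auxF i l < _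
  unfold auxF
  split
  · rename_i x
    exact isSuccLimit_omo.add_one_lt (hl x (by simp))
  · rename_i x y
    exact (bF_le x y).trans_lt (hl x (by simp))
  · rename_i x y
    exact (bG_le x y).trans_lt (hl x (by simp))
  · rename_i x y
    exact (eF_le x y).trans_lt (hl x (by simp))
  · rename_i x y
    exact (eG_le x y).trans_lt (hl x (by simp))
  · exact omega_pos _

section
variable {N : Set Ordinal.{0}} (hN : Closed aux N)
include hN

theorem aux_succ {x : Ordinal.{0}} (hx : x ∈ N) : x + 1 ∈ N :=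
  hN (show aux.ι from (0 : Fin 5)) [x] (by simpa using hx)

theorem aux_bF {x y : Ordinal.{0}} (hx : x ∈ N) (hy : y ∈ N) : bF x y ∈ N :=
  hN (show aux.ι from (1 : Fin 5)) [x, y] (by simp [hx, hy])

theorem aux_bG {x y : Ordinal.{0}} (hx : x ∈ N) (hy : y ∈ N) : bG x y ∈ N :=
  hN (show aux.ι from (2 : Fin 5)) [x, y] (by simp [hx, hy])

theorem aux_eF {x y : Ordinal.{0}} (hx : x ∈ N) (hy : y ∈ N) : eF x y ∈ N :=
  hN (show aux.ι from (3 : Fin 5)) [x, y] (by simp [hx, hy])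

theorem aux_eG {x y : Ordinal.{0}} (hx : x ∈ N) (hy : y ∈ N) : eG x y ∈ N :=
  hN (show aux.ι from (4 : Fin 5)) [x, y] (by simp [hx, hy])

end

end MST
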