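import Mathlib

/-!
# Mutual stationarity of cofinality `ω₁` sequences below `ℵ_ω` : definitions

`kap n = ℵ_{n+2}`, structures are first-order structures in a countable language whose
universe is the set `Pt` of all ordinals below `ω_ω`.
-/

namespace MST

open FirstOrder Ordinal Cardinal

/-- The cardinal `κ_n = ℵ_{n+2}`, as an ordinal. -/
noncomputable def kap (n : ℕ) : Ordinal.{0} := ω_ ((n + 2 : ℕ) : Ordinal.{0})

/-- The universe of the structures: the set of all ordinals below `ω_ω`. -/
abbrev Pt : Type 1 := Set.Iio (ω_ (ω : Ordinal.{0}))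

/-- A first-order structure on `ℵ_ω` in a countable language. -/
structure CStr where
  /-- the language -/
  L : FirstOrder.Language.{0, 0}
  /-- the language is countable -/
  card_le : L.card ≤ ℵ₀
  /-- the structure -/
  str : L.Structure Pt

attribute [instance] CStr.str

/-- `chi N n = sup (N ∩ κ_n)`. -/
noncomputable def chi (N : Set Pt) (n : ℕ) : Ordinal.{0} :=
  sSup {x : Ordinal.{0} | x < kap n ∧ ∃ p ∈ N, (p : Ordinal.{0}) = x}

/-- `S` is a sequence of stationary sets `S n ⊆ κ_n ∩ cof(ω₁)`. -/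
def StatSeq (S : ℕ → Set Ordinal.{0}) : Prop :=
  ∀ n, (∀ x ∈ S n, x < kap n ∧ x.cof = ℵ_ 1) ∧
    IsStationary {x : Set.Iio (kap n) | (x : Ordinal.{0}) ∈ S n}

/-- The sequence `⟨S n | n ≥ m⟩` is mutually stationary. -/
def MutStat (m : ℕ) (S : ℕ → Set Ordinal.{0}) : Prop :=
  ∀ A : CStr, ∃ N : A.L.ElementarySubstructure Pt, ∀ n, m ≤ n → chi N n ∈ S n

/-- The statement `(∗)` of the problem. -/
def Star : Prop := ∀ S, StatSeq S → MutStat 0 S

/-- The tree of all finite sequences `(sup (N ∩ κ_m), …, sup (N ∩ κ_{m+k-1}))`, where `N` is an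
elementary substructure of `A` with `sup (N ∩ κ_{m+i}) ∈ S (m+i)` for all `i < k`. -/
def Tr (m : ℕ) (A : CStr) (S : ℕ → Set Ordinal.{0}) : Set (List Ordinal.{0}) :=
  {s | ∃ N : A.L.ElementarySubstructure Pt,
    s = (List.range s.length).map (fun i => chi N (m + i)) ∧
    ∀ i < s.length, chi N (m + i) ∈ S (m + i)}

/-- `r` strictly decreases along the tree `T`. -/
def Decreasing (T : Set (List Ordinal.{0})) (r : List Ordinal.{0} → Ordinal.{0}) : Prop :=
  ∀ s x, s ∈ T → s ++ [x] ∈ T → r (s ++ [x]) < r s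

/-- The level `(∗)_α` of `(∗)`, for the tail starting at `m`: no tree `Tr m A S` carries a
strictly decreasing function into `α`. -/
def Level (m : ℕ) (α : Ordinal.{0}) : Prop :=
  ∀ S, StatSeq S → ∀ A : CStr,
    ¬ ∃ r, Decreasing (Tr m A S) r ∧ ∀ s ∈ Tr m A S, r s < α

end MST
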