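import Pool.Agent.MST.Trace

/-!
# Adding all ordinals below `μ_m`, and closure points in stationary sets
-/

namespace MST

open FirstOrder Ordinal Cardinal Set

theorem cl_directed {ι : Type*} [Nonempty ι] (A : Alg) (Y : ι → Set Ordinal.{0})
    (dir : ∀ i j, ∃ k, Y i ⊆ Y k ∧ Y j ⊆ Y k) : cl A (⋃ i, Y i) ⊆ ⋃ i, cl A (Y i) := by
  refine cl_min ?_ ?_
  · intro i l hl
    have h : ∀ l : List Ordinal.{0}, (∀ x ∈ l, x ∈ ⋃ i, cl A (Y i)) → ∃ k, ∀ x ∈ l, x ∈ cl A (Y k) := by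
      intro l
      induction l with
      | nil => intro _; exact ⟨Classical.arbitrary ι, by simp⟩
      | cons a l ih =>
        intro h
        obtain ⟨k, hk⟩ := ih (fun x hx => h x (List.mem_cons_of_mem _ hx))
        obtain ⟨k', hk'⟩ := mem_iUnion.1 (h a (by simp))
        obtain ⟨k'', h1, h2⟩ := dir k k'
        refine ⟨k'', ?_⟩
        intro x hx
        rcases List.mem_cons.1 hx with rfl | hx
        · exact cl_mono h2 hk'
        · exact cl_mono h1 (hk x hx)
    obtain ⟨k, hk⟩ := h l hl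
    exact mem_iUnion.2 ⟨k, cl_closed A _ i l hk⟩
  · intro x hx
    obtain ⟨i, hi⟩ := mem_iUnion.1 hx
    exact mem_iUnion.2 ⟨i, subset_cl A _ hi⟩

/-- the functions `l ↦ sup (cl (l ∪ μ_m) ∩ κ_i)` -/
noncomputable def Alg.fill (A : Alg) (m : ℕ) : Alg :=
  ⟨ℕ, inferInstance, fun i l => chiS (cl A ({x | x ∈ l} ∪ Iio (mu m))) i⟩

theorem fill_bdd (A : Alg) (m : ℕ) : (A.fill m).Bdd :=
  fun i _ _ => (chiS_le _ i).trans_lt (kap_lt i)

theorem mk_list_le (l : List Ordinal.{0}) : #({x | x ∈ l} : Set Ordinal.{0}) ≤ ℵ₀ := by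
  have : ({x | x ∈ l} : Set Ordinal.{0}).Finite := List.finite_toSet l
  exact (this.countable).le_aleph0

theorem fill_spec {A : Alg} {m : ℕ} {N : Set Ordinal.{0}} (hN : Closed (A.fill m) N) (n : ℕ)
    (hmn : m ≤ n) : chiS (cl A (N ∪ Iio (mu m))) n = chiS N n := by
  apply le_antisymm
  · refine csSup_le' ?_
    rintro x ⟨hx, hxk⟩
    let Y : {l : List Ordinal.{0} // ∀ y ∈ l, y ∈ N} → Set Ordinal.{0} :=
      fun l => {x | x ∈ l.1} ∪ Iio (mu m)
    have : Nonempty {l : List Ordinal.{0} // ∀ y ∈ l, y ∈ N} := ⟨⟨[], by simp⟩⟩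
    have hU : N ∪ Iio (mu m) ⊆ ⋃ l, Y l := by
      rintro y (hy | hy)
      · exact mem_iUnion.2 ⟨⟨[y], by simpa using hy⟩, Or.inl (by simp)⟩
      · exact mem_iUnion.2 ⟨⟨[], by simp⟩, Or.inr hy⟩
    have hdir : ∀ i j, ∃ k, Y i ⊆ Y k ∧ Y j ⊆ Y k := by
      rintro ⟨l, hl⟩ ⟨l', hl'⟩
      refine ⟨⟨l ++ l', ?_⟩, ?_, ?_⟩
      · intro y hy
        rcases List.mem_append.1 hy with h | h
        · exact hl y h
        · exact hl' y h
      · exact union_subset_union_left _ fun y (hy : y ∈ l) => List.mem_append_left _ hy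
      · exact union_subset_union_left _ fun y (hy : y ∈ l') => List.mem_append_right _ hy
    obtain ⟨⟨l, hl⟩, hxl⟩ := mem_iUnion.1 (cl_directed A Y hdir (cl_mono hU hx))
    have h1 : x ≤ chiS (cl A ({x | x ∈ l} ∪ Iio (mu m))) n := le_chiS hxl hxk
    refine h1.trans (le_chiS (hN (show (A.fill m).ι from n) l hl) ?_)
    refine sSup_lt_kap ?_ (fun x hx => hx.2)
    refine (mk_le_mk_of_subset inter_subset_left).trans (mk_cl_le_al A (mk_union_al ?_ ?_))
    · exact (mk_list_le l).trans (aleph0_le_al n)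
    · exact mk_Iio_le ((mu_lt_kap m).trans_le (kap_le_kap.2 hmn))
  · refine csSup_le' ?_
    rintro x ⟨hx, hxk⟩
    exact le_chiS (subset_cl A _ (Or.inl hx)) hxk

/-- Stationary sets contain closure points. -/
theorem exists_good {n : ℕ} {S : Set Ordinal.{0}}
    (hS : IsStationary {x : Set.Iio (kap n) | (x : Ordinal.{0}) ∈ S}) (A : Alg)
    {X : Set Ordinal.{0}} (hX : #X ≤ ℵ_ ((n : Ordinal.{1}) + 1)) {β : Ordinal.{0}}
    (hβ : β < kap n) :
    ∃ δ ∈ S, β < δ ∧ δ < kap n ∧ ∀ x ∈ cl A (X ∪ Iio δ), x < kap n → x < δ := by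
  let E : Set (Set.Iio (kap n)) := {δ | β < (δ : Ordinal.{0}) ∧
    ∀ x ∈ cl A (X ∪ Iio (δ : Ordinal.{0})), x < kap n → x < δ}
  have hE : IsClub E := by
    refine ⟨?_, ?_⟩
    · intro d hd hne hdir a ha
      obtain ⟨d0, hd0⟩ := hne
      refine ⟨(hd hd0).1.trans_le (ha.1 hd0), ?_⟩
      intro x hx hxk
      let Y : d → Set Ordinal.{0} := fun δ => X ∪ Iio ((δ : Set.Iio (kap n)) : Ordinal.{0})
      have : Nonempty d := ⟨⟨d0, hd0⟩⟩
      have hU : X ∪ Iio (a : Ordinal.{0}) ⊆ ⋃ δ, Y δ := by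
        rintro y (hy | hy)
        · exact mem_iUnion.2 ⟨⟨d0, hd0⟩, Or.inl hy⟩
        · have hy' : y < (a : Ordinal.{0}) := hy
          have hyk : y < kap n := hy'.trans a.2
          have : ∃ d1 ∈ d, (⟨y, hyk⟩ : Set.Iio (kap n)) < d1 := by
            by_contra! hc
            have h3 : a ≤ (⟨y, hyk⟩ : Set.Iio (kap n)) := ha.2 (fun d1 h1 => hc d1 h1)
            exact absurd hy' (not_lt.2 h3)
          obtain ⟨d1, hd1, h1⟩ := this
          exact mem_iUnion.2 ⟨⟨d1, hd1⟩, Or.inr h1⟩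
      have hYdir : ∀ i j, ∃ k, Y i ⊆ Y k ∧ Y j ⊆ Y k := by
        intro i j
        rcases le_total (i : Set.Iio (kap n)) j with h | h
        · exact ⟨j, union_subset_union_right _ (Iio_subset_Iio h), le_rfl⟩
        · exact ⟨i, le_rfl, union_subset_union_right _ (Iio_subset_Iio h)⟩
      obtain ⟨⟨d1, hd1⟩, hx1⟩ := mem_iUnion.1 (cl_directed A Y hYdir (cl_mono hU hx))
      exact ((hd hd1).2 x hx1 hxk).trans_le (ha.1 hd1)
    · intro a
      have hstep : ∀ b : Ordinal.{0}, b < kap n →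
          max b (chiS (cl A (X ∪ Iio b)) n) + 1 < kap n := by
        intro b hb
        refine (isSuccLimit_kap n).add_one_lt (max_lt hb ?_)
        refine sSup_lt_kap ?_ (fun x hx => hx.2)
        exact (mk_le_mk_of_subset inter_subset_left).trans
          (mk_cl_le_al A (mk_union_al hX (mk_Iio_le hb)))
      let c : ℕ → Ordinal.{0} := fun k =>
        Nat.rec (max (a : Ordinal.{0}) β + 1) (fun _ b => max b (chiS (cl A (X ∪ Iio b)) n) + 1) k
      have hc0 : c 0 = max (a : Ordinal.{0}) β + 1 := rfl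
      have hcs : ∀ k, c (k + 1) = max (c k) (chiS (cl A (X ∪ Iio (c k))) n) + 1 := fun _ => rfl
      have hck : ∀ k, c k < kap n := by
        intro k
        induction k with
        | zero => exact (isSuccLimit_kap n).add_one_lt (max_lt a.2 hβ)
        | succ k ih => rw [hcs]; exact hstep _ ih
      have hcm : ∀ k, c k < c (k + 1) := by
        intro k
        rw [hcs]
        exact (le_max_left _ _).trans_lt (lt_add_one _)
      have hmono : Monotone c := monotone_nat_of_le_succ fun k => (hcm k).le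
      have hcof : ℵ₀ < (kap n).cof := by
        rw [kap_cof, aleph0_lt_aleph]
        exact lt_of_le_of_lt zero_le (lt_add_one _)
      have hδ : (⨆ k, c k) < kap n := exists_bound_nat hcof c hck
      have hle : ∀ k, c k ≤ ⨆ k, c k := fun k => Ordinal.le_iSup c k
      have ha0 : (a : Ordinal.{0}) < ⨆ k, c k :=
        ((le_max_left _ β).trans_lt (lt_add_one _)).trans_le (hle 0)
      have hb0 : β < ⨆ k, c k :=
        ((le_max_right (a : Ordinal.{0}) _).trans_lt (lt_add_one _)).trans_le (hle 0)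
      refine ⟨⟨⨆ k, c k, hδ⟩, ⟨hb0, ?_⟩, ha0.le⟩
      intro x hx hxk
      let Y : ℕ → Set Ordinal.{0} := fun k => X ∪ Iio (c k)
      have hU : X ∪ Iio (⨆ k, c k) ⊆ ⋃ k, Y k := by
        rintro y (hy | hy)
        · exact mem_iUnion.2 ⟨0, Or.inl hy⟩
        · obtain ⟨k, hk⟩ := Ordinal.lt_iSup_iff.1 (show y < ⨆ k, c k from hy)
          exact mem_iUnion.2 ⟨k, Or.inr hk⟩
      have hYdir : ∀ i j, ∃ k, Y i ⊆ Y k ∧ Y j ⊆ Y k := by
        intro i j
        exact ⟨max i j, union_subset_union_right _ (Iio_subset_Iio (hmono (le_max_left _ _))),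
          union_subset_union_right _ (Iio_subset_Iio (hmono (le_max_right _ _)))⟩
      obtain ⟨k, hxk'⟩ := mem_iUnion.1 (cl_directed A Y hYdir (cl_mono hU hx))
      have h1 : x ≤ chiS (cl A (X ∪ Iio (c k))) n := le_chiS hxk' hxk
      refine (h1.trans (le_max_right (c k) _)).trans_lt ?_
      exact (lt_add_one _).trans_le (hle (k + 1))
  obtain ⟨δ, hδS, hδE⟩ := hS hE
  exact ⟨δ, hδS, hδE.1, δ.2, hδE.2⟩

end MST
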