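import Pool.Agent.MST.Tree

/-!
# Mutual stationarity: criterion, tails, levels
-/

namespace MST

open FirstOrder Ordinal Cardinal Set

theorem chi_lt (N : Set Pt) (n : ℕ) : chi N n < ω_ (ω : Ordinal.{0}) := by
  rw [chi_eq]
  exact (chiS_le _ n).trans_lt (kap_lt n)

theorem tr_intro {m : ℕ} {A : CStr} {S : ℕ → Set Ordinal.{0}} (N : A.L.ElementarySubstructure Pt)
    (L : ℕ) (h : ∀ i < L, chi N (m + i) ∈ S (m + i)) :
    (List.range L).map (fun i => chi N (m + i)) ∈ Tr m A S := by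
  refine ⟨N, ?_, ?_⟩
  · rw [List.length_map, List.length_range]
  · intro i hi
    rw [List.length_map, List.length_range] at hi
    exact h i hi

theorem tr_pc (m : ℕ) (A : CStr) (S : ℕ → Set Ordinal.{0}) : PC (Tr m A S) := by
  rintro s x ⟨N, h1, h2⟩
  rw [List.length_append, List.length_singleton] at h1 h2
  rw [List.range_succ, List.map_append, List.map_singleton] at h1
  have h3 := (List.append_inj' h1 (by simp)).1
  refine ⟨N, h3, fun i hi => h2 i (by omega)⟩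

theorem tr_lt (m : ℕ) (A : CStr) (S : ℕ → Set Ordinal.{0}) :
    ∀ s ∈ Tr m A S, ∀ x ∈ s, x < ω_ (ω : Ordinal.{0}) := by
  rintro s ⟨N, h1, h2⟩ x hx
  rw [h1] at hx
  obtain ⟨i, -, rfl⟩ := List.mem_map.1 hx
  exact chi_lt _ _

theorem branch_of_mutStat {m : ℕ} {S : ℕ → Set Ordinal.{0}} (h : MutStat m S) (A : CStr) :
    ∃ δ : ℕ → Ordinal.{0}, ∀ k, (List.range k).map δ ∈ Tr m A S := by
  obtain ⟨N, hN⟩ := h A
  exact ⟨fun i => chi N (m + i), fun k => tr_intro N k fun i _ => hN _ (by omega)⟩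

theorem cl_lt {A : Alg} (hA : A.Bdd) {X : Set Ordinal.{0}}
    (hX : ∀ x ∈ X, x < ω_ (ω : Ordinal.{0})) : ∀ x ∈ cl A X, x < ω_ (ω : Ordinal.{0}) :=
  fun _ hx => cl_min (N := Iio (ω_ (ω : Ordinal.{0}))) (fun i l hl => hA i l hl) hX hx

/-- **Compactness** for elementary substructures. -/
theorem compact_str (m : ℕ) (A : CStr) : ∃ B : CStr, ∀ δ : ℕ → Ordinal.{0},
    (∀ n, m ≤ n → ℵ₀ < (δ n).cof) →
    (∀ k, ∃ N : B.L.ElementarySubstructure Pt, ∀ i < k, chi N (m + i) = δ (m + i)) →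
    ∃ N : A.L.ElementarySubstructure Pt, ∀ n, m ≤ n → chi N n = δ n := by
  obtain ⟨A0, hA0, hsk⟩ := exists_skolem A
  let B := A0.add aux
  have hB : B.Bdd := hA0.add aux_bdd
  let B' := B.add (B.fill m)
  have hB' : B'.Bdd := hB.add (fill_bdd B m)
  refine ⟨B'.toC, fun δ hδ hN => ?_⟩
  choose N hN using hN
  have hcl : ∀ k, Closed B' (ords (N k : Set Pt)) := fun k => closed_ords hB' (N k)
  let M : ℕ → Set Ordinal.{0} := fun k => cl B (ords (N (k + 1) : Set Pt) ∪ Iio (mu m))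
  have hM : ∀ k n, m ≤ n → chiS (M k) n = chi (N (k + 1)) n := by
    intro k n hmn
    rw [chi_eq]
    exact fill_spec (closed_add.1 (hcl (k + 1))).2 n hmn
  obtain ⟨M', h1, h2, h3⟩ := compact hA0 δ hδ M (fun k => cl_closed _ _)
    (fun k ν hν => subset_cl _ _ (Or.inr hν)) (by
      intro k j hmj hjk
      obtain ⟨i, rfl⟩ := Nat.exists_eq_add_of_le hmj
      rw [hM k _ hmj]
      exact hN (k + 1) i (by omega))
  obtain ⟨P, hP⟩ := hsk M' h2 h1
  refine ⟨P, fun n hn => ?_⟩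
  rw [chi_eq, hP, ords_of h2]
  exact h3 n hn

theorem mutStat_of_branch {m : ℕ} {S : ℕ → Set Ordinal.{0}}
    (hS : ∀ n, ∀ x ∈ S n, ℵ₀ < x.cof)
    (h : ∀ A : CStr, ∃ δ : ℕ → Ordinal.{0}, ∀ k, (List.range k).map δ ∈ Tr m A S) :
    MutStat m S := by
  intro A
  obtain ⟨B, hB⟩ := compact_str m A
  obtain ⟨δ, hδ⟩ := h B
  have hδN : ∀ k, ∃ N : B.L.ElementarySubstructure Pt, ∀ i < k, chi N (m + i) = δ i ∧
      δ i ∈ S (m + i) := by
    intro k
    obtain ⟨N, h1, h2⟩ := hδ k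
    rw [List.length_map, List.length_range] at h1 h2
    refine ⟨N, fun i hi => ?_⟩
    have h3 : δ i = chi N (m + i) := by
      have := congrArg (fun l => l[i]?) h1
      simpa [hi] using this
    rw [h3]
    exact ⟨rfl, h2 i hi⟩
  have hδS : ∀ i, δ i ∈ S (m + i) := fun i => by
    obtain ⟨N, hN⟩ := hδN (i + 1)
    exact (hN i (Nat.lt_succ_self i)).2
  obtain ⟨N, hN⟩ := hB (fun n => δ (n - m)) (fun n hn => by
      have := hS _ _ (hδS (n - m))
      exact this) (fun k => by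
        obtain ⟨N, hN⟩ := hδN k
        refine ⟨N, fun i hi => ?_⟩
        rw [(hN i hi).1]
        congr 1
        omega)
  refine ⟨N, fun n hn => ?_⟩
  rw [hN n hn]
  have := hδS (n - m)
  rwa [show m + (n - m) = n by omega] at this

theorem mutStat_iff_branch {m : ℕ} {S : ℕ → Set Ordinal.{0}}
    (hS : ∀ n, ∀ x ∈ S n, ℵ₀ < x.cof) :
    MutStat m S ↔
      ∀ A : CStr, ∃ δ : ℕ → Ordinal.{0}, ∀ k, (List.range k).map δ ∈ Tr m A S :=
  ⟨fun h A => branch_of_mutStat h A, mutStat_of_branch hS⟩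

theorem mutStat_iff_rank {m : ℕ} {S : ℕ → Set Ordinal.{0}}
    (hS : ∀ n, ∀ x ∈ S n, ℵ₀ < x.cof) :
    MutStat m S ↔ ∀ A : CStr, ¬ ∃ r, Decreasing (Tr m A S) r := by
  rw [mutStat_iff_branch hS]
  constructor
  · rintro h A ⟨r, hr⟩
    obtain ⟨δ, hδ⟩ := h A
    exact no_decreasing_of_branch δ hδ r hr
  · intro h A
    by_contra hb
    obtain ⟨r, hr, -⟩ := exists_rank (tr_pc m A S) (tr_lt m A S) hb
    exact h A ⟨r, hr⟩

/-! ### Tails -/

theorem mutStat_mono {m m' : ℕ} (h : m ≤ m') {S : ℕ → Set Ordinal.{0}} (hM : MutStat m S) :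
    MutStat m' S := by
  intro A
  obtain ⟨N, hN⟩ := hM A
  exact ⟨N, fun n hn => hN n (h.trans hn)⟩

theorem StatSeq.cof {S : ℕ → Set Ordinal.{0}} (hS : StatSeq S) : ∀ n, ∀ x ∈ S n, ℵ₀ < x.cof := by
  intro n x hx
  rw [((hS n).1 x hx).2]
  exact aleph0_lt_aleph.2 zero_lt_one

theorem mutStat_pred {m : ℕ} {S : ℕ → Set Ordinal.{0}} (hS : StatSeq S)
    (hM : MutStat (m + 1) S) : MutStat m S := by
  intro A
  obtain ⟨A0, hA0, hsk⟩ := exists_skolem A
  let B := A0.add aux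
  have hB : B.Bdd := hA0.add aux_bdd
  let B' := B.add (B.fill (m + 1))
  have hB' : B'.Bdd := hB.add (fill_bdd B (m + 1))
  obtain ⟨N, hN⟩ := hM B'.toC
  have hcl : Closed B' (ords (N : Set Pt)) := closed_ords hB' N
  set N0 := ords (N : Set Pt) with hN0
  have hN0a : Closed aux N0 := (closed_add.1 (closed_add.1 hcl).1).2
  let M := cl B (N0 ∪ Iio (mu (m + 1)))
  have hMchi : ∀ n, m + 1 ≤ n → chiS M n = chiS N0 n := fun n hn =>
    fill_spec (closed_add.1 hcl).2 n hn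
  have hchi : ∀ n, m + 1 ≤ n → chiS N0 n ∈ S n := fun n hn => by
    rw [← chi_eq]
    exact hN n hn
  -- a small set cofinal in all coordinates
  have hx : ∀ (n : ℕ) (ν : Ordinal.{0}), ∃ y, m + 1 ≤ n → ν < ω_ 1 →
      y ∈ N0 ∧ y < kap n ∧ eF (chiS N0 n) ν < y := by
    intro n ν
    by_cases h : m + 1 ≤ n ∧ ν < ω_ 1
    · have hc := ((hS n).1 _ (hchi n h.1)).2
      have h1 : eF (chiS N0 n) ν < chiS N0 n := by
        apply eF_lt
        rw [hc, ord_aleph]
        exact h.2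
      obtain ⟨y, hy, hyk, hy2⟩ := exists_lt_of_lt_chiS h1
      exact ⟨y, fun _ _ => ⟨hy, hyk, hy2⟩⟩
    · exact ⟨0, fun h1 h2 => absurd ⟨h1, h2⟩ h⟩
  choose y hy using hx
  let X : Set Ordinal.{0} := {x | ∃ n ν, m + 1 ≤ n ∧ ν < ω_ 1 ∧ y n ν = x}
  have hXN : X ⊆ N0 := by
    rintro x ⟨n, ν, h1, h2, rfl⟩
    exact (hy n ν h1 h2).1
  have hXc : #X ≤ ℵ_ ((m : Ordinal.{1}) + 1) := by
    have h1 : X ⊆ ⋃ n : ℕ, (y n) '' Iio (ω_ 1) := by
      rintro x ⟨n, ν, h1, h2, rfl⟩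
      exact mem_iUnion.2 ⟨n, ν, h2, rfl⟩
    have h2 : #(Iio (ω_ 1 : Ordinal.{0})) ≤ ℵ_ ((m : Ordinal.{1}) + 1) := by
      rw [Cardinal.mk_Iio_ordinal, card_omega, lift_aleph, aleph_le_aleph]
      simp
    refine (mk_le_mk_of_subset h1).trans ?_
    have h3 := Cardinal.mk_iUnion_le_sum_mk_lift (f := fun n : ℕ => (y n) '' Iio (ω_ 1))
    have h4 : Cardinal.sum (fun n : ℕ => #((y n) '' Iio (ω_ 1 : Ordinal.{0}))) ≤
        ℵ_ ((m : Ordinal.{1}) + 1) := by
      refine (Cardinal.sum_le_sum _ (fun _ => ℵ_ ((m : Ordinal.{1}) + 1))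
        (fun n => mk_image_le.trans h2)).trans ?_
      rw [Cardinal.sum_const]
      simp only [mk_nat, lift_aleph0, Cardinal.lift_id]
      exact (Cardinal.mul_le_max_of_aleph0_le_left le_rfl).trans
        (max_le (aleph0_le_al m) (by simp))
    have h5 : Cardinal.lift.{0} #(⋃ n : ℕ, (y n) '' Iio (ω_ 1 : Ordinal.{0})) ≤ _ := h3
    rw [Cardinal.lift_id'.{0, 1}] at h5
    exact h5.trans h4
  obtain ⟨δ, hδS, -, hδk, hδ⟩ := exists_good (hS m).2 B hXc
    (β := 0) (by exact (omega_pos _))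
  have hδc : δ.cof = ℵ_ 1 := ((hS m).1 δ hδS).2
  let M' := cl B (X ∪ Iio δ)
  have hM'M : M' ⊆ M := by
    refine cl_mono (union_subset_union hXN (Iio_subset_Iio ?_))
    rw [mu_succ]
    exact hδk.le
  have hM'b : ∀ x ∈ M', x < ω_ (ω : Ordinal.{0}) := by
    refine cl_lt hB ?_
    rintro x (hx | hx)
    · exact ords_lt (hXN hx)
    · exact (lt_trans hx hδk).trans (kap_lt m)
  have hM'cl : Closed B M' := cl_closed _ _
  obtain ⟨P, hP⟩ := hsk M' hM'b (closed_add.1 hM'cl).1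
  refine ⟨P, fun n hn => ?_⟩
  rw [chi_eq, hP, ords_of hM'b]
  rcases hn.eq_or_lt with rfl | hn
  · have h1 : M' ∩ Iio (kap m) = Iio δ := by
      ext x
      constructor
      · rintro ⟨h1, h2⟩
        exact hδ x h1 h2
      · intro h1
        exact ⟨subset_cl _ _ (Or.inr h1), lt_trans h1 hδk⟩
    have hlim : Order.IsSuccLimit δ := by
      rw [← one_lt_cof_iff, hδc]
      exact (one_lt_aleph0).trans_le (aleph0_le_aleph 1)
    have h2 : chiS M' m = δ := by
      unfold chiS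
      rw [h1]
      apply le_antisymm
      · exact csSup_le' fun x hx => le_of_lt hx
      · refine le_of_forall_lt fun c hc => ?_
        exact (lt_add_one c).trans_le (le_csSup ⟨δ, fun x hx => le_of_lt hx⟩
          (hlim.add_one_lt hc))
    rw [h2]
    exact hδS
  · have h1 : chiS M' n = chiS N0 n := by
      apply le_antisymm
      · rw [← hMchi n hn]
        refine csSup_le' fun x hx => le_chiS (hM'M hx.1) hx.2
      · refine le_of_forall_lt fun c hc => ?_
        have hc' := ((hS n).1 _ (hchi n hn)).2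
        have h2 : eG (chiS N0 n) c < ω_ 1 := by
          have := eG_lt hc
          rwa [hc', ord_aleph] at this
        have h3 := hy n _ hn h2
        have h4 : c ≤ eF (chiS N0 n) (eG (chiS N0 n) c) := le_eF_eG hc
        exact (h4.trans_lt h3.2.2).trans_le
          (le_chiS (subset_cl _ _ (Or.inl ⟨n, _, hn, h2, rfl⟩)) h3.2.1)
    rw [h1]
    exact hchi n hn

theorem mutStat_tail {S : ℕ → Set Ordinal.{0}} (hS : StatSeq S) (m : ℕ) :
    MutStat m S ↔ MutStat 0 S := by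
  refine ⟨fun h => ?_, fun h => mutStat_mono (Nat.zero_le m) h⟩
  induction m with
  | zero => exact h
  | succ m ih => exact ih (mutStat_pred hS h)

/-! ### The local bound and the levels -/

theorem tr_of_closed {m : ℕ} {A : CStr} {S : ℕ → Set Ordinal.{0}} {A0 : Alg}
    (hsk : ∀ N : Set Ordinal.{0}, (∀ x ∈ N, x < ω_ (ω : Ordinal.{0})) → Closed A0 N →
      ∃ M : A.L.ElementarySubstructure Pt, (M : Set Pt) = {p : Pt | (p : Ordinal.{0}) ∈ N}) :
    ∀ N : Set Ordinal.{0}, (∀ x ∈ N, x < ω_ (ω : Ordinal.{0})) → Closed A0 N →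
      ∀ L, (∀ i < L, chiS N (m + i) ∈ S (m + i)) → cs N m L ∈ Tr m A S := by
  intro N hN hcl L hL
  obtain ⟨P, hP⟩ := hsk N hN hcl
  have h1 : ∀ n, chi P n = chiS N n := fun n => by rw [chi_eq, hP, ords_of hN]
  have h2 := tr_intro (m := m) (S := S) P L (fun i hi => by rw [h1]; exact hL i hi)
  have h3 : (List.range L).map (fun i => chi P (m + i)) = cs N m L := by
    unfold cs
    exact List.map_congr_left fun i _ => h1 _
  rwa [h3] at h2

/-- the local bound, for closed sets of an algebra -/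
theorem exists_bound_alg {m : ℕ} {S : ℕ → Set Ordinal.{0}} (hS : StatSeq S) (A : CStr)
    {r : List Ordinal.{0} → Ordinal.{0}} (hr : Decreasing (Tr m A S) r) :
    ∃ H : Alg, H.Bdd ∧ ∀ N : Set Ordinal.{0}, (∀ x ∈ N, x < ω_ (ω : Ordinal.{0})) →
      Closed H N → (∀ ν < ω_ 1, ν ∈ N) → ∀ L, (∀ i < L, chiS N (m + i) ∈ S (m + i)) →
      ot N (kap (m + L)) ≤ r (cs N m L) := by
  obtain ⟨A0, hA0, hsk⟩ := exists_skolem A
  have hD : ∀ x j, Dfun (A0.add aux) S x j < ω_ (ω : Ordinal.{0}) :=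
    Dfun_lt _ fun n x hx => ((hS n).1 x hx).1
  refine ⟨(A0.add aux).add (Dalg (Dfun (A0.add aux) S) (ω_ (ω : Ordinal.{0}))),
    (hA0.add aux_bdd).add (Dalg_bdd hD _), ?_⟩
  intro N hN hcl hω L hL
  refine local_bound hS (tr_of_closed hsk) hr _ L N (closed_add.1 hcl).1 hN hω ?_ hL le_rfl
  intro x hx _ j
  exact of_closed_Dalg (closed_add.1 hcl).2 x hx (hN x hx) j

theorem level_of_lt {m : ℕ} {α : Ordinal.{0}} (hα : α < kap m) : Level m α := by
  rintro S hS A ⟨r, hr, hrα⟩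
  obtain ⟨H, hH, hb⟩ := exists_bound_alg hS A hr
  have hγ : max (α + 1) (ω_ 1) ≤ kap m :=
    max_le ((isSuccLimit_kap m).add_one_lt hα).le ((omega1_le_mu m).trans (mu_lt_kap m).le)
  let N := cl H (Iio (max (α + 1) (ω_ 1)))
  have hN : ∀ x ∈ N, x < ω_ (ω : Ordinal.{0}) :=
    cl_lt hH fun x hx => lt_trans (lt_of_lt_of_le hx hγ) (kap_lt m)
  have h1 := hb N hN (cl_closed _ _)
    (fun ν hν => subset_cl _ _ (lt_of_lt_of_le hν (le_max_right _ _))) 0 (by simp)
  have h2 : max (α + 1) (ω_ 1) ≤ ot N (kap (m + 0)) :=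
    le_ot (fun x hx => subset_cl _ _ hx) (by simpa using hγ)
  have h3 : cs N m 0 = [] := rfl
  rw [h3] at h1
  have h4 : ([] : List Ordinal.{0}) ∈ Tr m A S := by
    have := tr_of_closed (m := m) (S := S) (exists_skolem A).choose_spec.2
      (cl (exists_skolem A).choose ∅) (cl_lt (exists_skolem A).choose_spec.1 (by simp))
      (cl_closed _ _) 0 (by simp)
    exact this
  have h5 := hrα [] h4
  exact absurd ((le_max_left (α + 1) (ω_ 1)).trans (h2.trans h1))
    (not_le.2 (h5.trans (lt_add_one α)))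

theorem star_iff_level (m : ℕ) : Star ↔ ∀ α < ω_ ((ω : Ordinal.{0}) + 1), Level m α := by
  constructor
  · rintro h α - S hS A ⟨r, hr, -⟩
    have h1 : MutStat m S := mutStat_mono (Nat.zero_le m) (h S hS)
    exact (mutStat_iff_rank hS.cof).1 h1 A ⟨r, hr⟩
  · intro h S hS
    rw [← mutStat_tail hS m, mutStat_iff_branch hS.cof]
    intro A
    by_contra hb
    obtain ⟨r, hr, hr2⟩ := exists_rank (tr_pc m A S) (tr_lt m A S) hb
    refine h (r [] + 1) ((isSuccLimit_omega _).add_one_lt (hr2 [])) S hS A ⟨r, hr, ?_⟩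
    intro s hs
    exact (le_root (tr_pc m A S) hr s hs).trans_lt (lt_add_one _)

/-- **The hierarchy.** -/
theorem hierarchy (m : ℕ) : (∀ α < kap m, Level m α) ∧
    (Star ↔ ∀ α < ω_ ((ω : Ordinal.{0}) + 1), Level m α) :=
  ⟨fun _ h => level_of_lt h, star_iff_level m⟩

/-- **The local bound.** -/
theorem local_bound_str {m : ℕ} {S : ℕ → Set Ordinal.{0}} (hS : StatSeq S) (A : CStr)
    {r : List Ordinal.{0} → Ordinal.{0}} (hr : Decreasing (Tr m A S) r) :
    ∃ B : CStr, ∀ N : B.L.ElementarySubstructure Pt, ∀ L,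
      (∀ i < L, chi N (m + i) ∈ S (m + i)) →
      ∃ f : Ordinal.{0} → Ordinal.{0},
        (∀ p ∈ (N : Set Pt), (p : Ordinal.{0}) < kap (m + L) →
          f p < r ((List.range L).map fun i => chi N (m + i))) ∧
        (∀ p ∈ (N : Set Pt), ∀ q ∈ (N : Set Pt), p < q → f p < f q) := by
  obtain ⟨H, hH, hb⟩ := exists_bound_alg hS A hr
  let H' := H.add (H.fill m)
  have hH' : H'.Bdd := hH.add (fill_bdd H m)
  refine ⟨H'.toC, fun N L hL => ?_⟩
  have hcl : Closed H' (ords (N : Set Pt)) := closed_ords hH' N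
  let M := cl H (ords (N : Set Pt) ∪ Iio (mu m))
  have hM : ∀ x ∈ M, x < ω_ (ω : Ordinal.{0}) := by
    refine cl_lt hH ?_
    rintro x (hx | hx)
    · exact ords_lt hx
    · exact (lt_trans hx (mu_lt_kap m)).trans (kap_lt m)
  have hchi : ∀ n, m ≤ n → chiS M n = chi N n := fun n hn => by
    rw [chi_eq]
    exact fill_spec (closed_add.1 hcl).2 n hn
  have h1 := hb M hM (cl_closed _ _)
    (fun ν hν => subset_cl _ _ (Or.inr (lt_of_lt_of_le hν (omega1_le_mu m)))) L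
    (fun i hi => by rw [hchi _ (by omega)]; exact hL i hi)
  have h2 : cs M m L = (List.range L).map fun i => chi N (m + i) := by
    unfold cs
    exact List.map_congr_left fun i _ => hchi _ (by omega)
  rw [h2] at h1
  refine ⟨ot M, ?_, ?_⟩
  · intro p hp hpk
    exact (ot_lt (subset_cl _ _ (Or.inl ⟨p, hp, rfl⟩)) hpk).trans_le h1
  · intro p hp q hq hpq
    exact ot_lt (subset_cl _ _ (Or.inl ⟨p, hp, rfl⟩)) hpq

end MST
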