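import Pool.Agent.MST.Fill

/-!
# The local lower bound for ranks
-/

namespace MST

open FirstOrder Ordinal Cardinal Set

/-- the order type of `N ∩ β`, as the least ordinal into which `N ∩ β` embeds -/
noncomputable def ot (N : Set Ordinal.{0}) (β : Ordinal.{0}) : Ordinal.{0} :=
  sInf {γ | ∃ f : Ordinal.{0} → Ordinal.{0}, (∀ x ∈ N, x < β → f x < γ) ∧
    ∀ x ∈ N, ∀ y ∈ N, x < y → y < β → f x < f y}

theorem ot_spec (N : Set Ordinal.{0}) (β : Ordinal.{0}) :
    ∃ f : Ordinal.{0} → Ordinal.{0}, (∀ x ∈ N, x < β → f x < ot N β) ∧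
      ∀ x ∈ N, ∀ y ∈ N, x < y → y < β → f x < f y := by
  have hne : {γ | ∃ f : Ordinal.{0} → Ordinal.{0}, (∀ x ∈ N, x < β → f x < γ) ∧
    ∀ x ∈ N, ∀ y ∈ N, x < y → y < β → f x < f y}.Nonempty :=
    ⟨β, id, fun x _ h => h, fun x _ y _ h _ => h⟩
  exact csInf_mem hne

theorem ot_lt {N : Set Ordinal.{0}} {β' β : Ordinal.{0}} (h : β' ∈ N) (h' : β' < β) :
    ot N β' < ot N β := by
  obtain ⟨f, h1, h2⟩ := ot_spec N β
  have h3 : ot N β' ≤ f β' := csInf_le' ⟨f, fun x hx hxb => h2 x hx β' h hxb h',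
    fun x hx y hy hxy hyb => h2 x hx y hy hxy (hyb.trans h')⟩
  exact h3.trans_lt (h1 β' h h')

theorem ot_le {N : Set Ordinal.{0}} {β ρ : Ordinal.{0}}
    (h : ∀ β' ∈ N, β' < β → ot N β' < ρ) : ot N β ≤ ρ :=
  csInf_le' ⟨ot N, h, fun _ hx _ _ hxy _ => ot_lt hx hxy⟩

theorem ot_congr {N N' : Set Ordinal.{0}} {β : Ordinal.{0}} (h : ∀ x < β, x ∈ N ↔ x ∈ N') :
    ot N β = ot N' β := by
  unfold ot
  congr 1
  ext γ
  constructor
  · rintro ⟨f, h1, h2⟩
    exact ⟨f, fun x hx hxb => h1 x ((h x hxb).2 hx) hxb,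
      fun x hx y hy hxy hyb => h2 x ((h x (hxy.trans hyb)).2 hx) y ((h y hyb).2 hy) hxy hyb⟩
  · rintro ⟨f, h1, h2⟩
    exact ⟨f, fun x hx hxb => h1 x ((h x hxb).1 hx) hxb,
      fun x hx y hy hxy hyb => h2 x ((h x (hxy.trans hyb)).1 hx) y ((h y hyb).1 hy) hxy hyb⟩

theorem le_ot {N : Set Ordinal.{0}} {β γ : Ordinal.{0}} (h : ∀ x < γ, x ∈ N) (h' : γ ≤ β) :
    γ ≤ ot N β := by
  obtain ⟨f, h1, h2⟩ := ot_spec N β
  have h3 : ∀ x, x < γ → x ≤ f x := by
    intro x
    induction x using WellFoundedLT.induction with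
    | _ x ih =>
      intro hx
      refine le_of_forall_lt fun y hy => ?_
      exact (ih y hy (hy.trans hx)).trans_lt
        (h2 y (h y (hy.trans hx)) x (h x hx) hy (hx.trans_le h'))
  refine le_of_forall_lt fun y hy => ?_
  exact (h3 y hy).trans_lt (h1 y (h y hy) (hy.trans_le h'))

open Classical in
/-- the functions `x ↦ D x j` restricted to `β`, in the recursion -/
noncomputable def DrecF (β : Ordinal.{0}) (D : ∀ x < β, ℕ → Ordinal.{0}) (j : ℕ)
    (l : List Ordinal.{0}) : Ordinal.{0} :=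
  match l with
  | [x] => if h : x < β then D x h j else 0
  | _ => 0

/-- the algebra of the functions `x ↦ D x j` restricted to `β`, in the recursion -/
noncomputable def Drec (β : Ordinal.{0}) (D : ∀ x < β, ℕ → Ordinal.{0}) : Alg :=
  ⟨ℕ, inferInstance, DrecF β D⟩

/-- the algebra of the functions `x ↦ D x j` restricted to `β` -/
noncomputable def Dalg (D : Ordinal.{0} → ℕ → Ordinal.{0}) (β : Ordinal.{0}) : Alg :=
  Drec β (fun x _ => D x)

/-- the requirements on `D β j` -/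
def Good (B : Alg) (S : ℕ → Set Ordinal.{0}) (R : Alg) (β : Ordinal.{0}) (j : ℕ)
    (δ : Ordinal.{0}) : Prop :=
  δ ∈ S j ∧ β < δ ∧ (∀ i < j, kap i < δ) ∧ ∀ x ∈ cl (B.add R) (Iio δ), x < kap j → x < δ

/-- the function `D` -/
noncomputable def Dfun (B : Alg) (S : ℕ → Set Ordinal.{0}) : Ordinal.{0} → ℕ → Ordinal.{0} := by
  classical
  exact WellFounded.fix (C := fun _ => ℕ → Ordinal.{0}) (wellFounded_lt (α := Ordinal.{0}))
    (fun β rec j => if h : ∃ δ, Good B S (Drec β rec) β j δ then h.choose else 0)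

theorem Dfun_eq (B : Alg) (S : ℕ → Set Ordinal.{0}) (β : Ordinal.{0}) (j : ℕ) :
    (∃ δ, Good B S (Dalg (Dfun B S) β) β j δ) → Good B S (Dalg (Dfun B S) β) β j (Dfun B S β j) := by
  classical
  intro h
  have h1 : Dfun B S β = fun j => if h : ∃ δ, Good B S (Drec β (fun x _ => Dfun B S x)) β j δ
      then h.choose else 0 := by
    unfold Dfun
    rw [WellFounded.fix_eq]
  have h2 : Drec β (fun x _ => Dfun B S x) = Dalg (Dfun B S) β := rfl
  rw [h1]
  simp only [h2]
  rw [dif_pos h]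
  exact h.choose_spec

theorem Dfun_lt (B : Alg) {S : ℕ → Set Ordinal.{0}} (hS : ∀ n, ∀ x ∈ S n, x < kap n)
    (β : Ordinal.{0}) (j : ℕ) : Dfun B S β j < ω_ (ω : Ordinal.{0}) := by
  classical
  by_cases h : ∃ δ, Good B S (Dalg (Dfun B S) β) β j δ
  · exact (hS j _ (Dfun_eq B S β j h).1).trans (kap_lt j)
  · have h1 : Dfun B S β = fun j => if h : ∃ δ, Good B S (Drec β (fun x _ => Dfun B S x)) β j δ
        then h.choose else 0 := by
      conv_lhs => unfold Dfun
      rw [WellFounded.fix_eq]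
      rfl
    have h2 : Drec β (fun x _ => Dfun B S x) = Dalg (Dfun B S) β := rfl
    rw [h1]
    simp only [h2]
    rw [dif_neg h]
    exact omega_pos _

theorem Dalg_bdd {D : Ordinal.{0} → ℕ → Ordinal.{0}} (hD : ∀ x j, D x j < ω_ (ω : Ordinal.{0}))
    (β : Ordinal.{0}) : (Dalg D β).Bdd := by
  intro j l hl
  change DrecF β (fun x _ => D x) j l < _
  unfold DrecF
  split
  · split_ifs
    · exact hD _ _
    · exact omega_pos _
  · exact omega_pos _

theorem Dfun_spec (B : Alg) {S : ℕ → Set Ordinal.{0}} (hS : StatSeq S) {β : Ordinal.{0}} {j : ℕ}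
    (hβ : β < kap j) : Good B S (Dalg (Dfun B S) β) β j (Dfun B S β j) := by
  refine Dfun_eq B S β j ?_
  obtain ⟨γ, hγ, hβγ, hiγ⟩ : ∃ γ, γ < kap j ∧ β ≤ γ ∧ ∀ i < j, kap i ≤ γ := by
    cases j with
    | zero => exact ⟨β, hβ, le_rfl, by simp⟩
    | succ j =>
      refine ⟨max β (kap j), max_lt hβ (kap_lt_kap.2 (Nat.lt_succ_self j)), le_max_left _ _, ?_⟩
      intro i hi
      exact (kap_le_kap.2 (Nat.lt_succ_iff.1 hi)).trans (le_max_right _ _)
  obtain ⟨δ, hδS, h1, h2, h3⟩ := exists_good (hS j).2 (B.add (Dalg (Dfun B S) β)) (X := ∅)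
    (by simp) hγ
  refine ⟨δ, hδS, hβγ.trans_lt h1, fun i hi => (hiγ i hi).trans_lt h1, ?_⟩
  intro x hx
  refine h3 x ?_
  rwa [empty_union]

/-- the finite characteristic sequence -/
noncomputable def cs (N : Set Ordinal.{0}) (m L : ℕ) : List Ordinal.{0} :=
  (List.range L).map (fun i => chiS N (m + i))

theorem closed_Dalg {D : Ordinal.{0} → ℕ → Ordinal.{0}} {β : Ordinal.{0}} {N : Set Ordinal.{0}}
    (h0 : (0 : Ordinal.{0}) ∈ N) (h : ∀ x ∈ N, x < β → ∀ j, D x j ∈ N) :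
    Closed (Dalg D β) N := by
  intro j l hl
  change DrecF β (fun x _ => D x) j l ∈ N
  unfold DrecF
  split
  · rename_i x
    split_ifs with hx
    · exact h x (hl x (by simp)) hx j
    · exact h0
  · exact h0

theorem of_closed_Dalg {D : Ordinal.{0} → ℕ → Ordinal.{0}} {β : Ordinal.{0}} {N : Set Ordinal.{0}}
    (h : Closed (Dalg D β) N) : ∀ x ∈ N, x < β → ∀ j, D x j ∈ N := by
  intro x hx hxb j
  have h1 := h (show (Dalg D β).ι from j) [x] (by simpa using hx)
  have h2 : (Dalg D β).F (show (Dalg D β).ι from j) [x] = D x j := dif_pos hxb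
  rwa [h2] at h1

theorem local_bound {m : ℕ} {S : ℕ → Set Ordinal.{0}} (hS : StatSeq S) {A : Alg}
    {T : Set (List Ordinal.{0})}
    (hT : ∀ N : Set Ordinal.{0}, (∀ x ∈ N, x < ω_ (ω : Ordinal.{0})) → Closed A N →
      ∀ L, (∀ i < L, chiS N (m + i) ∈ S (m + i)) → cs N m L ∈ T)
    {r : List Ordinal.{0} → Ordinal.{0}} (hr : Decreasing T r) (β : Ordinal.{0}) :
    ∀ (L : ℕ) (N : Set Ordinal.{0}), Closed (A.add aux) N → (∀ x ∈ N, x < ω_ (ω : Ordinal.{0})) →
      (∀ ν < ω_ 1, ν ∈ N) → (∀ x ∈ N, x < β → ∀ j, Dfun (A.add aux) S x j ∈ N) →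
      (∀ i < L, chiS N (m + i) ∈ S (m + i)) → β ≤ kap (m + L) → ot N β ≤ r (cs N m L) := by
  induction β using WellFoundedLT.induction with
  | _ β ih =>
    intro L N hN hNb hω hD hchi hβ
    refine ot_le fun β' hβ' hββ => ?_
    set B := A.add aux with hB
    have hNa : Closed aux N := (closed_add.1 hN).2
    have hβk : β' < kap (m + L) := hββ.trans_le hβ
    obtain ⟨hδS, hβδ, hiδ, hcl⟩ := Dfun_spec B hS hβk
    have hδN : Dfun B S β' (m + L) ∈ N := hD β' hβ' hββ _
    generalize hδ : Dfun B S β' (m + L) = δ at hδS hβδ hiδ hcl hδN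
    have hδk : δ < kap (m + L) := ((hS (m + L)).1 δ hδS).1
    have hδc : δ.cof = ℵ_ 1 := ((hS (m + L)).1 δ hδS).2
    have hωδ : ω_ 1 ≤ δ := by
      rw [← ord_aleph, ← hδc]
      exact ord_cof_le δ
    let N' := cl (B.add (Dalg (Dfun B S) β')) (N ∩ Iio δ)
    have h0 : (0 : Ordinal.{0}) ∈ N := hω 0 (omega_pos _)
    have hsub : N' ⊆ N := by
      refine cl_min (closed_add.2 ⟨hN, closed_Dalg h0 ?_⟩) inter_subset_left
      intro x hx hxb j
      exact hD x hx (hxb.trans hββ) j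
    have hlt : ∀ x ∈ N', x < kap (m + L) → x < δ := by
      intro x hx hxk
      exact hcl x (cl_mono inter_subset_right hx) hxk
    have hin : ∀ x ∈ N, x < δ → x ∈ N' := fun x hx hxδ => subset_cl _ _ ⟨hx, hxδ⟩
    have hN'cl : Closed (B.add (Dalg (Dfun B S) β')) N' := cl_closed _ _
    have hN' : Closed B N' := (closed_add.1 hN'cl).1
    have hN'b : ∀ x ∈ N', x < ω_ (ω : Ordinal.{0}) := fun x hx => hNb x (hsub hx)
    have hchi' : ∀ i < L, chiS N' (m + i) = chiS N (m + i) := by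
      intro i hi
      have h2 : N' ∩ Iio (kap (m + i)) = N ∩ Iio (kap (m + i)) := by
        ext x
        constructor
        · rintro ⟨h3, h4⟩
          exact ⟨hsub h3, h4⟩
        · rintro ⟨h3, h4⟩
          exact ⟨hin x h3 (lt_trans h4 (hiδ (m + i) (by omega))), h4⟩
      unfold chiS
      rw [h2]
    have hchiL : chiS N' (m + L) = δ := by
      apply le_antisymm
      · exact csSup_le' fun x hx => (hlt x hx.1 hx.2).le
      · refine le_of_forall_lt fun c hc => ?_
        have hlim : Order.IsSuccLimit δ := by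
          rw [← one_lt_cof_iff, hδc]
          exact (one_lt_aleph0).trans_le (aleph0_le_aleph 1)
        have hc1 : c + 1 < δ := hlim.add_one_lt hc
        have h3 : eG δ (c + 1) < ω_ 1 := by
          have := eG_lt hc1
          rwa [hδc, ord_aleph] at this
        have h4 : eF δ (eG δ (c + 1)) ∈ N := aux_eF hNa hδN (hω _ h3)
        have h5 : eF δ (eG δ (c + 1)) < δ := eF_lt (eG_lt hc1)
        have h6 : c + 1 ≤ eF δ (eG δ (c + 1)) := le_eF_eG hc1
        exact ((lt_add_one c).trans_le h6).trans_le (le_chiS (hin _ h4 h5) (h5.trans hδk))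
    have hcs' : cs N' m (L + 1) = cs N m L ++ [δ] := by
      unfold cs
      rw [List.range_succ, List.map_append, List.map_singleton, hchiL]
      congr 1
      refine List.map_congr_left fun i hi => ?_
      exact hchi' i (List.mem_range.1 hi)
    have hchi2 : ∀ i < L + 1, chiS N' (m + i) ∈ S (m + i) := by
      intro i hi
      rcases Nat.lt_succ_iff_lt_or_eq.1 hi with h | rfl
      · rw [hchi' i h]
        exact hchi i h
      · rw [hchiL]
        exact hδS
    have hT1 : cs N m L ∈ T := hT N hNb (closed_add.1 hN).1 L hchi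
    have hT2 : cs N m L ++ [δ] ∈ T := by
      rw [← hcs']
      exact hT N' hN'b (closed_add.1 hN').1 (L + 1) hchi2
    have h7 := hr _ _ hT1 hT2
    have h8 := ih β' hββ (L + 1) N' hN' hN'b
      (fun ν hν => hin ν (hω ν hν) (hν.trans_le hωδ)) (of_closed_Dalg (closed_add.1 hN'cl).2) hchi2
      (hβk.le.trans (kap_le_kap.2 (by omega)))
    have h9 : ot N' β' = ot N β' := ot_congr fun x hx =>
      ⟨fun h => hsub h, fun h => hin x h (hx.trans hβδ)⟩
    rw [h9, hcs'] at h8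
    exact h8.trans_lt h7

end MST
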