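import Pool.Agent.MST.Card

/-!
# The trace of a closed set is determined by its characteristic function
-/

namespace MST

open FirstOrder Ordinal Cardinal Set

theorem bddAbove_tr (N : Set Ordinal.{0}) (n : ℕ) : BddAbove (N ∩ Iio (kap n)) :=
  ⟨kap n, fun _ hx => (le_of_lt hx.2)⟩

theorem chiS_le (N : Set Ordinal.{0}) (n : ℕ) : chiS N n ≤ kap n :=
  csSup_le' fun _ hx => (le_of_lt hx.2)

theorem le_chiS {N : Set Ordinal.{0}} {n : ℕ} {x : Ordinal.{0}} (h : x ∈ N) (h' : x < kap n) :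
    x ≤ chiS N n :=
  le_csSup (bddAbove_tr N n) ⟨h, h'⟩

theorem isSuccLimit_kap (n : ℕ) : Order.IsSuccLimit (kap n) := isSuccLimit_omega _

theorem lt_chiS {N : Set Ordinal.{0}} (hN : Closed aux N) {n : ℕ} {x : Ordinal.{0}} (h : x ∈ N)
    (h' : x < kap n) : x < chiS N n :=
  (lt_add_one x).trans_le (le_chiS (aux_succ hN h) ((isSuccLimit_kap n).add_one_lt h'))

theorem exists_lt_of_lt_chiS {N : Set Ordinal.{0}} {n : ℕ} {y : Ordinal.{0}} (h : y < chiS N n) :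
    ∃ x ∈ N, x < kap n ∧ y < x := by
  by_contra! hc
  have : chiS N n ≤ y := csSup_le' fun x hx => hc x hx.1 hx.2
  exact absurd h (not_lt.2 this)

theorem exists_bound_nat {δ : Ordinal.{0}} (hδ : ℵ₀ < δ.cof) (ν : ℕ → Ordinal.{0})
    (h : ∀ k, ν k < δ) : (⨆ k, ν k) < δ :=
  iSup_lt_of_lt_cof (by simpa using hδ) h

theorem omega_closed {m n : ℕ} {N : Set Ordinal.{0}} (hN : Closed aux N)
    (hμ : ∀ ν < mu m, ν ∈ N) (hcof : ∀ j, m ≤ j → j < n → ℵ₀ < (chiS N j).cof)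
    {z : Ordinal.{0}} (hz : z < chiS N n) (x : ℕ → Ordinal.{0}) (hx : ∀ k, x k ∈ N)
    (hxz : ∀ k, x k < z) (hsup : ∀ y < z, ∃ k, y < x k) : z ∈ N := by
  by_contra hzN
  obtain ⟨y, hyN, hyk, hzy⟩ := exists_lt_of_lt_chiS hz
  have hne : {w | w ∈ N ∧ z ≤ w}.Nonempty := ⟨y, hyN, hzy.le⟩
  set w := sInf {w | w ∈ N ∧ z ≤ w} with hw
  have hwm : w ∈ N ∧ z ≤ w := csInf_mem hne
  have hwy : w ≤ y := csInf_le' ⟨hyN, hzy.le⟩
  have hwk : w < kap n := hwy.trans_lt hyk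
  have hzw : z < w := lt_of_le_of_ne hwm.2 (fun h => hzN (h ▸ hwm.1))
  have hmin : ∀ v ∈ N, v < w → v < z := by
    intro v hv hvw
    by_contra hvz
    exact absurd hvw (not_lt.2 (csInf_le' ⟨hv, not_lt.1 hvz⟩))
  rcases cof_cases hwk m with h1 | ⟨j, hmj, hjn, h1⟩
  · have h2 : eG w z < w.cof.ord := eG_lt hzw
    have h3 : eG w z ∈ N := hμ _ (h2.trans_le h1)
    have h4 := hmin _ (aux_eF hN hwm.1 h3) (eF_lt h2)
    exact absurd h4 (not_lt.2 (le_eF_eG hzw))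
  · have h2 : ∀ k, eG w (x k) < kap j := fun k => h1 ▸ eG_lt ((hxz k).trans hzw)
    have h3 : ∀ k, eG w (x k) ∈ N := fun k => aux_eG hN hwm.1 (hx k)
    have h4 : (⨆ k, eG w (x k)) < chiS N j :=
      exists_bound_nat (hcof j hmj hjn) _ fun k => lt_chiS hN (h3 k) (h2 k)
    obtain ⟨ν, hνN, hνk, hν⟩ := exists_lt_of_lt_chiS h4
    have hνc : ν < w.cof.ord := by rw [h1]; exact hνk
    obtain ⟨k, hk⟩ := hsup _ (hmin _ (aux_eF hN hwm.1 hνN) (eF_lt hνc))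
    have h5 : x k ≤ eF w (eG w (x k)) := le_eF_eG ((hxz k).trans hzw)
    have h6 : eG w (x k) ≤ ν := (Ordinal.le_iSup (fun k => eG w (x k)) k).trans hν.le
    have h7 : eF w (eG w (x k)) ≤ eF w ν := eF_mono h6 hνc
    exact absurd hk (not_lt.2 (h5.trans h7))

theorem exists_common {m n : ℕ} {N N' : Set Ordinal.{0}} (hN : Closed aux N)
    (hN' : Closed aux N') (hμ : ∀ ν < mu m, ν ∈ N) (hμ' : ∀ ν < mu m, ν ∈ N')
    (hcof : ∀ j, m ≤ j → j ≤ n → ℵ₀ < (chiS N j).cof)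
    (hcof' : ∀ j, m ≤ j → j ≤ n → ℵ₀ < (chiS N' j).cof) (hmn : m ≤ n)
    (hchi : chiS N n = chiS N' n) {y : Ordinal.{0}} (hy : y < chiS N n) :
    ∃ z, z ∈ N ∧ z ∈ N' ∧ y < z ∧ z < kap n := by
  classical
  have h1 : ∀ a : Ordinal.{0}, ∃ x, a < chiS N n → x ∈ N ∧ a < x ∧ x < chiS N n := by
    intro a
    by_cases ha : a < chiS N n
    · obtain ⟨x, hx, hxk, hax⟩ := exists_lt_of_lt_chiS ha
      exact ⟨x, fun _ => ⟨hx, hax, lt_chiS hN hx hxk⟩⟩
    · exact ⟨0, fun h => absurd h ha⟩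
  have h2 : ∀ a : Ordinal.{0}, ∃ x, a < chiS N n → x ∈ N' ∧ a < x ∧ x < chiS N n := by
    intro a
    by_cases ha : a < chiS N n
    · rw [hchi] at ha
      obtain ⟨x, hx, hxk, hax⟩ := exists_lt_of_lt_chiS ha
      exact ⟨x, fun _ => ⟨hx, hax, hchi ▸ lt_chiS hN' hx hxk⟩⟩
    · exact ⟨0, fun h => absurd h ha⟩
  choose F hF using h1
  choose G hG using h2
  let a : ℕ → Ordinal.{0} := fun k => Nat.rec y (fun _ IH => G (F IH)) k
  have ha0 : a 0 = y := rfl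
  have has : ∀ k, a (k + 1) = G (F (a k)) := fun _ => rfl
  have ha : ∀ k, a k < chiS N n := by
    intro k
    induction k with
    | zero => exact hy
    | succ k ih =>
      rw [has]
      exact (hG _ (hF _ ih).2.2).2.2
  have hFm : ∀ k, F (a k) ∈ N := fun k => (hF _ (ha k)).1
  have haF : ∀ k, a k < F (a k) := fun k => (hF _ (ha k)).2.1
  have hFa : ∀ k, F (a k) < a (k + 1) := fun k => (hG _ (hF _ (ha k)).2.2).2.1
  have hGm : ∀ k, a (k + 1) ∈ N' := fun k => (hG _ (hF _ (ha k)).2.2).1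
  have hz : (⨆ k, a k) < chiS N n := exists_bound_nat (hcof n hmn le_rfl) _ ha
  have hle : ∀ k, a k ≤ ⨆ k, a k := fun k => Ordinal.le_iSup a k
  have hex : ∀ y < ⨆ k, a k, ∃ k, y < a k := fun y hy => (Ordinal.lt_iSup_iff).1 hy
  refine ⟨⨆ k, a k, ?_, ?_, ?_, hz.trans_le (chiS_le N n)⟩
  · refine omega_closed hN hμ (fun j h1 h2 => hcof j h1 h2.le) hz (fun k => F (a k)) hFm
      (fun k => (hFa k).trans_le (hle (k + 1))) ?_
    intro y hy
    obtain ⟨k, hk⟩ := hex y hy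
    exact ⟨k, hk.trans (haF k)⟩
  · refine omega_closed hN' hμ' (fun j h1 h2 => hcof' j h1 h2.le) (hchi ▸ hz)
      (fun k => a (k + 1)) hGm
      (fun k => ((haF (k + 1)).trans (hFa (k + 1))).trans_le (hle (k + 1 + 1))) ?_
    intro y hy
    obtain ⟨k, hk⟩ := hex y hy
    exact ⟨k, hk.trans ((haF k).trans (hFa k))⟩
  · exact ((haF 0).trans (hFa 0)).trans_le (hle 1)

/-- The trace below `κ_n` is determined by the characteristic function. -/
theorem trace_sub {m : ℕ} {N N' : Set Ordinal.{0}} (hN : Closed aux N)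
    (hN' : Closed aux N') (hμ : ∀ ν < mu m, ν ∈ N) (hμ' : ∀ ν < mu m, ν ∈ N') (n : ℕ)
    (hmn : m ≤ n)
    (hchi : ∀ j, m ≤ j → j ≤ n → chiS N j = chiS N' j ∧ ℵ₀ < (chiS N j).cof) :
    ∀ x ∈ N, x < kap n → x ∈ N' := by
  induction n, hmn using Nat.le_induction with
  | base =>
    intro x hx hxk
    have h1 : x < chiS N' m := by
      rw [← (hchi m le_rfl le_rfl).1]
      exact lt_chiS hN hx hxk
    obtain ⟨y, hy, hyk, hxy⟩ := exists_lt_of_lt_chiS h1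
    have h2 : bG y x ∈ N' := hμ' _ ((bG_lt hxy).trans_le (card_ord_le hyk))
    have h3 := aux_bF hN' hy h2
    rwa [bF_bG hxy] at h3
  | succ n hmn ih =>
    intro x hx hxk
    have h0 := hchi (n + 1) (by omega) le_rfl
    have h1 : x < chiS N (n + 1) := lt_chiS hN hx hxk
    obtain ⟨z, hzN, hzN', hxz, hzk⟩ := exists_common hN hN' hμ hμ'
      (fun j h1 h2 => (hchi j h1 h2).2) (fun j h1 h2 => (hchi j h1 h2).1 ▸ (hchi j h1 h2).2)
      (by omega) h0.1 h1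
    have h2 : bG z x ∈ N := aux_bG hN hzN hx
    have h3 : bG z x < kap n := by
      rw [← mu_succ]
      exact (bG_lt hxz).trans_le (card_ord_le hzk)
    have h4 : bG z x ∈ N' := ih (fun j h1 h2 => hchi j h1 (by omega)) _ h2 h3
    have h5 := aux_bF hN' hzN' h4
    rwa [bF_bG hxz] at h5

theorem trace_iff {m : ℕ} {N N' : Set Ordinal.{0}} (hN : Closed aux N)
    (hN' : Closed aux N') (hμ : ∀ ν < mu m, ν ∈ N) (hμ' : ∀ ν < mu m, ν ∈ N') (n : ℕ)
    (hmn : m ≤ n)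
    (hchi : ∀ j, m ≤ j → j ≤ n → chiS N j = chiS N' j ∧ ℵ₀ < (chiS N j).cof)
    {x : Ordinal.{0}} (hxk : x < kap n) : x ∈ N ↔ x ∈ N' :=
  ⟨fun h => trace_sub hN hN' hμ hμ' n hmn hchi x h hxk,
    fun h => trace_sub hN' hN hμ' hμ n hmn
      (fun j h1 h2 => ⟨(hchi j h1 h2).1.symm, (hchi j h1 h2).1 ▸ (hchi j h1 h2).2⟩) x h hxk⟩

/-- **Compactness.** -/
theorem compact {m : ℕ} {A : Alg} (hA : A.Bdd) (δ : ℕ → Ordinal.{0})
    (hδ : ∀ n, m ≤ n → ℵ₀ < (δ n).cof)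
    (N : ℕ → Set Ordinal.{0}) (hN : ∀ k, Closed (A.add aux) (N k))
    (hμ : ∀ k, ∀ ν < mu m, ν ∈ N k)
    (hchi : ∀ k j, m ≤ j → j ≤ k → chiS (N k) j = δ j) :
    ∃ M : Set Ordinal.{0}, Closed A M ∧ (∀ x ∈ M, x < ω_ (ω : Ordinal.{0})) ∧
      ∀ n, m ≤ n → chiS M n = δ n := by
  have hNa : ∀ k, Closed aux (N k) := fun k => (closed_add.1 (hN k)).2
  have hNA : ∀ k, Closed A (N k) := fun k => (closed_add.1 (hN k)).1
  have key : ∀ k k' n x, m ≤ n → n ≤ k → n ≤ k' → x < kap n → x ∈ N k → x ∈ N k' := by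
    intro k k' n x hmn hk hk' hx h
    refine (trace_iff (hNa k) (hNa k') (hμ k) (hμ k') n hmn ?_ hx).1 h
    intro j h1 h2
    rw [hchi k j h1 (by omega), hchi k' j h1 (by omega)]
    exact ⟨rfl, hδ j h1⟩
  let M : Set Ordinal.{0} := {x | ∃ k, m ≤ k ∧ x ∈ N k ∧ x < kap k}
  have hlist : ∀ l : List Ordinal.{0}, (∀ x ∈ l, x ∈ M) → ∃ K, m ≤ K ∧
      ∀ K', K ≤ K' → ∀ x ∈ l, x ∈ N K' ∧ x < kap K' := by
    intro l
    induction l with
    | nil => intro _; exact ⟨m, le_rfl, by simp⟩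
    | cons a l ih =>
      intro h
      obtain ⟨K, hK, hK2⟩ := ih (fun x hx => h x (List.mem_cons_of_mem _ hx))
      obtain ⟨k, hmk, hak, hak'⟩ := h a (by simp)
      refine ⟨max K k, by omega, ?_⟩
      intro K' hK' x hx
      rcases List.mem_cons.1 hx with rfl | hx
      · refine ⟨key k K' k x hmk le_rfl (by omega) hak' hak, hak'.trans_le (kap_le_kap.2 (by omega))⟩
      · exact hK2 K' (by omega) x hx
  refine ⟨M, ?_, ?_, ?_⟩
  · intro i l hl
    obtain ⟨K, hmK, hK⟩ := hlist l hl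
    have h1 : A.F i l < ω_ (ω : Ordinal.{0}) :=
      hA i l fun x hx => (hK K le_rfl x hx).2.trans (kap_lt K)
    obtain ⟨n, hn⟩ := lt_omega_omega h1
    refine ⟨max K n, by omega, hNA _ i l fun x hx => (hK _ (le_max_left _ _) x hx).1,
      hn.trans_le (kap_le_kap.2 (le_max_right _ _))⟩
  · rintro x ⟨k, -, -, h⟩
    exact h.trans (kap_lt k)
  · intro n hmn
    have h1 : M ∩ Iio (kap n) = N n ∩ Iio (kap n) := by
      ext x
      constructor
      · rintro ⟨⟨k, hmk, hx, hxk⟩, hxn⟩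
        refine ⟨?_, hxn⟩
        rcases le_total k n with h | h
        · exact key k n k x hmk le_rfl h hxk hx
        · exact key k n n x hmn h le_rfl hxn hx
      · rintro ⟨hx, hxn⟩
        exact ⟨⟨n, hmn, hx, hxn⟩, hxn⟩
    unfold chiS
    rw [h1]
    exact hchi n n hmn le_rfl

end MST
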