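import Pool.Agent.MST.Rank

/-!
# Trees of finite sequences of ordinals and ranks
-/

namespace MST

open FirstOrder Ordinal Cardinal Set

/-- the points of `ℵ_ω` in universe 0 -/
abbrev W : Type := (ω_ (ω : Ordinal.{0})).ToType

/-- decoding of finite sequences -/
noncomputable def dec (s : List W) : List Ordinal.{0} :=
  s.map fun w => ((ToType.mk.symm w : Set.Iio (ω_ (ω : Ordinal.{0}))) : Ordinal.{0})

theorem dec_append (s t : List W) : dec (s ++ t) = dec s ++ dec t := by
  unfold dec
  exact List.map_append

theorem dec_length (s : List W) : (dec s).length = s.length := by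
  unfold dec
  exact List.length_map _

theorem dec_inj {s t : List W} (h : dec s = dec t) : s = t := by
  unfold dec at h
  refine List.map_injective_iff.2 ?_ h
  intro a b hab
  exact ToType.mk.symm.injective (Subtype.ext hab)

theorem exists_dec (s : List Ordinal.{0}) (h : ∀ x ∈ s, x < ω_ (ω : Ordinal.{0})) :
    ∃ w, dec w = s := by
  induction s with
  | nil => exact ⟨[], rfl⟩
  | cons a s ih =>
    obtain ⟨w, hw⟩ := ih fun x hx => h x (List.mem_cons_of_mem _ hx)
    refine ⟨ToType.mk ⟨a, h a (by simp)⟩ :: w, ?_⟩
    unfold dec at hw ⊢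
    rw [List.map_cons, hw]
    simp

/-- prefix closed sets of finite sequences -/
def PC (T : Set (List Ordinal.{0})) : Prop := ∀ s x, s ++ [x] ∈ T → s ∈ T

theorem PC.append {T : Set (List Ordinal.{0})} (h : PC T) (s t : List Ordinal.{0}) :
    s ++ t ∈ T → s ∈ T := by
  induction t using List.reverseRecOn with
  | nil => intro hs; simpa using hs
  | append_singleton t x ih =>
    intro hs
    rw [← List.append_assoc] at hs
    exact ih (h _ _ hs)

theorem PC.take {T : Set (List Ordinal.{0})} (h : PC T) {s : List Ordinal.{0}} (hs : s ∈ T)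
    (k : ℕ) : s.take k ∈ T := by
  refine h.append _ (s.drop k) ?_
  rwa [List.take_append_drop]

/-- the tree relation -/
def TR (T : Set (List Ordinal.{0})) (t s : List W) : Prop :=
  dec s ∈ T ∧ dec t ∈ T ∧ ∃ x, t = s ++ [x]

theorem wf_of_no_branch {T : Set (List Ordinal.{0})} (hT : PC T)
    (hb : ¬ ∃ δ : ℕ → Ordinal.{0}, ∀ k, (List.range k).map δ ∈ T) : WellFounded (TR T) := by
  rw [wellFounded_iff_isEmpty_descending_chain]
  refine ⟨fun ⟨f, hf⟩ => hb ?_⟩
  have hlen : ∀ n, (f n).length = (f 0).length + n := by
    intro n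
    induction n with
    | zero => rfl
    | succ n ih =>
      obtain ⟨-, -, x, hx⟩ := hf n
      rw [hx, List.length_append, ih]
      rfl
  have hpre : ∀ n k, n ≤ k → f n <+: f k := by
    intro n k hnk
    induction k, hnk using Nat.le_induction with
    | base => exact List.prefix_rfl
    | succ k hnk ih =>
      obtain ⟨-, -, x, hx⟩ := hf k
      rw [hx]
      exact ih.trans (List.prefix_append _ _)
  refine ⟨fun i => (dec (f (i + 1))).getD i 0, fun k => ?_⟩
  have h1 : (List.range k).map (fun i => (dec (f (i + 1))).getD i 0) = (dec (f k)).take k := by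
    apply List.ext_getElem
    · rw [List.length_map, List.length_range, List.length_take, dec_length, hlen]
      omega
    · intro i h1 h2
      rw [List.getElem_map, List.getElem_range, List.getElem_take]
      have hik : i < k := by simpa using h1
      obtain ⟨t, ht⟩ := hpre (i + 1) k (by omega)
      have hi : i < (dec (f (i + 1))).length := by
        rw [dec_length, hlen]
        omega
      have h3 : dec (f k) = dec (f (i + 1)) ++ dec t := by rw [← ht, dec_append]
      rw [List.getD_eq_getElem _ _ hi]
      simp only [h3]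
      rw [List.getElem_append_left hi]
  rw [h1]
  exact hT.take (hf k).1 k

theorem exists_rank {T : Set (List Ordinal.{0})} (hT : PC T)
    (hTb : ∀ s ∈ T, ∀ x ∈ s, x < ω_ (ω : Ordinal.{0}))
    (hb : ¬ ∃ δ : ℕ → Ordinal.{0}, ∀ k, (List.range k).map δ ∈ T) :
    ∃ r : List Ordinal.{0} → Ordinal.{0}, Decreasing T r ∧
      ∀ s, r s < ω_ ((ω : Ordinal.{0}) + 1) := by
  classical
  have hwf := wf_of_no_branch hT hb
  have : IsWellFounded (List W) (TR T) := ⟨hwf⟩
  have hrk : ∀ w, IsWellFounded.rank (TR T) w < ω_ ((ω : Ordinal.{0}) + 1) := by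
    intro w
    rw [lt_omega_iff_card_lt, ← succ_aleph, Order.lt_succ_iff]
    have h1 : ∀ o : Set.Iio (IsWellFounded.rank (TR T) w), ∃ v, IsWellFounded.rank (TR T) v = o :=
      fun o => IsWellFounded.mem_range_rank_of_le (le_of_lt o.2)
    choose g hg using h1
    have hgi : Function.Injective g := by
      intro a b hab
      apply Subtype.ext
      rw [← hg a, ← hg b, hab]
    have h2 := Cardinal.mk_le_of_injective (α := ULift.{0, 1} (Set.Iio (IsWellFounded.rank (TR T) w)))
      (β := ULift.{1, 0} (List W)) (f := fun a => ULift.up (g a.down)) (by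
        intro a b hab
        exact ULift.ext _ _ (hgi (ULift.up_injective hab)))
    rw [mk_uLift, mk_uLift, Cardinal.mk_Iio_ordinal, Cardinal.lift_id'.{0, 1}] at h2
    have h3 : (IsWellFounded.rank (TR T) w).card ≤ #(List W) := by
      have := h2
      simp only [Cardinal.lift_le] at this
      exact this
    refine h3.trans ?_
    have hW : #W = ℵ_ (ω : Ordinal.{0}) := by
      rw [mk_toType, card_omega]
    have : Nonempty W := by
      rw [← mk_ne_zero_iff, hW]
      exact (aleph_pos _).ne'
    rw [mk_list_eq_max, hW]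
    exact max_le (aleph0_le_aleph _) le_rfl
  refine ⟨fun s => if h : ∃ w, dec w = s then IsWellFounded.rank (TR T) h.choose else 0, ?_, ?_⟩
  · intro s x hs hsx
    obtain ⟨w', hw'⟩ := exists_dec _ (hTb _ hsx)
    obtain ⟨w, hw⟩ := exists_dec _ (hTb _ hs)
    have h1 : ∃ w, dec w = s := ⟨w, hw⟩
    have h2 : ∃ w, dec w = s ++ [x] := ⟨w', hw'⟩
    simp only [dif_pos h1, dif_pos h2]
    have h3 : h1.choose = w := dec_inj (h1.choose_spec.trans hw.symm)
    have h4 : h2.choose = w' := dec_inj (h2.choose_spec.trans hw'.symm)
    rw [h3, h4]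
    refine IsWellFounded.rank_lt_of_rel ⟨by rwa [hw], by rwa [hw'], ?_⟩
    obtain ⟨v, hv⟩ := exists_dec [x] (fun y hy => hTb _ hsx y (List.mem_append_right _ hy))
    have h5 : w' = w ++ v := dec_inj (by rw [dec_append, hw, hv, hw'])
    have h6 : v.length = 1 := by
      have := congrArg List.length hv
      rw [dec_length] at this
      simpa using this
    obtain ⟨y, rfl⟩ := List.length_eq_one_iff.1 h6
    exact ⟨y, h5⟩
  · intro s
    dsimp only
    split_ifs with h
    · exact hrk _
    · exact omega_pos _

theorem no_decreasing_of_branch {T : Set (List Ordinal.{0})} (δ : ℕ → Ordinal.{0})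
    (hδ : ∀ k, (List.range k).map δ ∈ T) (r : List Ordinal.{0} → Ordinal.{0}) :
    ¬ Decreasing T r := by
  intro hr
  have h1 : ∀ k, r ((List.range (k + 1)).map δ) < r ((List.range k).map δ) := by
    intro k
    have h2 : (List.range (k + 1)).map δ = (List.range k).map δ ++ [δ k] := by
      rw [List.range_succ, List.map_append, List.map_singleton]
    have h3 := hδ (k + 1)
    rw [h2] at h3 ⊢
    exact hr _ _ (hδ k) h3
  have h4 := (wellFounded_iff_isEmpty_descending_chain (r := fun a b : Ordinal.{0} => a < b)).1
    wellFounded_lt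
  exact h4.false ⟨fun k => r ((List.range k).map δ), h1⟩

theorem le_root {T : Set (List Ordinal.{0})} (hT : PC T) {r : List Ordinal.{0} → Ordinal.{0}}
    (hr : Decreasing T r) (s : List Ordinal.{0}) (hs : s ∈ T) : r s ≤ r [] := by
  induction s using List.reverseRecOn with
  | nil => exact le_rfl
  | append_singleton s x ih =>
    have h1 := hT _ _ hs
    exact (hr s x h1 hs).le.trans (ih h1)

end MST
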